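import Pool.Agent.MSTS.Geo
import Pool.Agent.MSTS.Shift

/-!
# Part (G) + (S), the probability half: definitions

(problem MP_e1ab72_pr; no sorry in this file.)

`R j` are the radii of the blocks (`R = rd K N`), `W j` the windows (`W = wj M K N`). `D`: length of the gaps
in blocks; `t`: index of the inner radius of the pattern, `L`: number of blocks. The nine zones are the
blocks `q z` with `lo D t z ≤ q z`, `q z + 5 ≤ lo D t z + D` (`Pos`): from outside to inside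

`q 0` (link `mL`) | `D` (`c`) | `2 D` (`cM`) | `q 1` (`mM`) | `q 2` (`mb`) | `4 D` (`n2`) | `5 D` (margin) | gates
in `[5 D, t - D)` | `t` (`rho`, `n1`) | `q 3` (`mn`) | `q 4` (`m0`) | `t + 2 D` (`j2`) | `q 5` (`m2`) | `t + 6 D`
(`j1`) | `q 6` (`m1`) | `t + 7 D` (`p2`) | `q 7` (`m5`) | `t + 11 D` (`p1`) | `q 8` (`md`) | `L = t + 13 D`.

* `geo`: the radii of `MSTS.Geo`.
* `enm S l`: the `l`-th element of the set `S` of the gates; `itm`, `act`: the items and their activity.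
* `lamS`: the profile.
* `Six`: at most six crossing clusters.
* `E2`: the final event for the set `S` of gates.
-/

set_option autoImplicit false

namespace Pool.Agent.MSTP

open Pool.Agent.TriPerc Pool.Agent.MST Pool.Agent.MSTG Pool.Agent.MSTS Set MeasureTheory

/-- The first block of the window of the zone `z`. -/
def lo (D t : ℕ) : Fin 9 → ℕ :=
  ![0, 2 * D, 3 * D, t, t + D, t + 3 * D, t + 6 * D, t + 8 * D, t + 11 * D]

/-- The positions of the zones. -/
def Pos (D t : ℕ) (q : Fin 9 → ℕ) : Prop := ∀ z, lo D t z + 1 ≤ q z ∧ q z + 4 ≤ lo D t z + D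

/-- The radii. -/
def geo (R : ℕ → ℤ) (D t L : ℕ) (rho rm tm um : ℤ) (q : Fin 9 → ℕ) : Geo where
  r := R L + 1
  md := mg R (q 8)
  p1 := R (t + 11 * D) + 1
  a5 := R (q 7 + 2)
  m5 := mg R (q 7 + 1)
  b5 := R (q 7 + 1) + 1
  p2 := R (t + 7 * D)
  m1 := mg R (q 6)
  j1 := R (t + 6 * D) + 1
  a2 := R (q 5 + 2)
  m2 := mg R (q 5 + 1)
  b2 := R (q 5 + 1) + 1
  j2 := R (t + 2 * D)
  mi := 2 * R (q 4 + 1)
  m0 := mg R (q 4)
  mn := mg R (q 3)
  rho := rho
  n1 := R t + 1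
  rm := rm
  tm := tm
  um := um
  n2 := R (4 * D)
  mb := mg R (q 2)
  mM := mg R (q 1)
  cM := R (2 * D) + 1
  c := R D
  mL := mg R (q 0)
  R := R 0

/-- The `l`-th element of `S`. -/
def enm (S : Finset ℕ) (l : ℕ) : ℕ := if h : l < S.card then S.orderEmbOfFin rfl ⟨l, h⟩ else 0

/-- The items. -/
def itm (S : Finset ℕ) (q : Fin 9 → ℕ) : Finset ℕ := S ∪ Finset.univ.image q

/-- The last active block of the items. -/
def act (S : Finset ℕ) (q : Fin 9 → ℕ) (i : ℕ) : ℕ :=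
  if i ∈ S then q 4 else if i = q 5 ∨ i = q 7 then i + 2 else i

/-- The profile. -/
noncomputable def lamS (R : ℕ → ℤ) (W : ℕ → ℝ) (S : Finset ℕ) (q : Fin 9 → ℕ) : V → ℝ :=
  prof R W (itm S q) (act S q)

/-- At most six crossing clusters. -/
def Six (m n : ℤ) (f : Lab) : Prop :=
  ∃ z : Fin 6 → V, ∀ y, Crs 0 m n f y → ∃ i, Conn (Op 0 f ∩ Ann 0 m n) (z i) y

/-- The final event for the set `S` of gates. -/
def E2 (R : ℕ → ℤ) (W : ℕ → ℝ) (D t : ℕ) (a b e : ℝ) (q : Fin 9 → ℕ) (S : Finset ℕ) : Set Lab :=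
  {w | MSTLim.PS e w a b ∧ Six (R t + 1) (R (t - D)) (sh w) ∧
    ∃ (x y : V) (v p z : ℕ → V), Chain (sh w) (R D - 1) (2 * R (q 4 + 1) / 2) x y
      (fun l => mg R (enm S l)) (fun l => W (enm S l)) S.card v p z ∧
      nrm x ≤ 2 * mg R (q 4) + 1 ∧ mg R (q 2) - 1 ≤ nrm y}

end Pool.Agent.MSTP
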