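import Pool.Agent.MSTP.Defs
import Pool.Agent.MSTG.Prof
import Pool.Agent.MSTLim.Moment

/-!
# The events of the gates

* `GG`: the block `i` is good for a gate; `meas_GG`.
* `mem_gdo`, `mem_gdb`: the relation with `NO`, `NB` of `GBkD.lean`.
* `ev_nb`: locality.
* `scl_ev`: the hypotheses `Scl` on radii and windows for large `N`.
-/

set_option autoImplicit false

namespace Pool.Agent.MSTP

open Pool.Agent.TriPerc Pool.Agent.MST Pool.Agent.MSTG Pool.Agent.MSTS Set MeasureTheory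
open Pool.Agent.MSTLim (rd wj mj gF ev_win ev_card big_ev rd_mul moment)
open scoped ENNReal

/-- The block `i` is good for a gate. -/
def GG (M K N B : ℝ) (n i : ℕ) : Set Lab :=
  {w | w ∈ MSTG.GdO (rd K N) (wj M K N) i ∧ w ∈ MSTG.GdB (rd K N) (wj M K N) i ∧
    ∀ j, i ≤ j → j + 2 ≤ n →
      ((MSTG.NV (rd K N) (wj M K N) i j w).ncard : ℝ) ≤ B * (1 / 2) ^ (j - i) / 2}

variable {M K N B : ℝ} {n i j : ℕ} {w : Lab}

theorem mem_gdo : w ∈ MSTG.GdO (rd K N) (wj M K N) i ↔ w ∉ MSTLim.NO M K N i := Iff.rfl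

theorem mem_gdb : w ∈ MSTG.GdB (rd K N) (wj M K N) i ↔ w ∉ MSTLim.NB M K N i := by
  constructor
  · rintro h ⟨u, y, h1, h2, h3, h4, h5, h6⟩
    exact h u y h2 h3 h1 h4 h5 h6
  · intro h u y h2 h3 h1 h4 h5 h6
    exact h ⟨u, y, h1, h2, h3, h4, h5, h6⟩

theorem wj_nonneg (hM : 0 ≤ M) (j : ℕ) : 0 ≤ wj M K N j := by
  unfold wj wd
  exact div_nonneg hM (mul_nonneg (sq_nonneg _) xf_nonneg)

private theorem nb_eq : MSTLim.NB M K N i = ⋃ u : V, ⋃ y : V,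
    {w | (Adj u y ∧ mj K N i ≤ nrm u ∧ nrm u ≤ 2 * mj K N i) ∧
      |w u - 1 / 2| < 2 * wj M K N i ∧ |w y - 1 / 2| < 2 * wj M K N i ∧
      w ∈ MxG (1 / 2 - 2 * wj M K N (i + 1)) (1 / 2 + 2 * wj M K N (i + 1)) u 2
        (nrm u / 16)} := by
  ext w
  simp only [mem_iUnion, mem_ofPred_eq, MSTLim.NB]
  constructor
  · rintro ⟨u, y, h1, h2, h3, h4, h5, h6⟩
    exact ⟨u, y, ⟨h1, h2, h3⟩, h4, h5, h6⟩
  · rintro ⟨u, y, ⟨h1, h2, h3⟩, h4, h5, h6⟩
    exact ⟨u, y, h1, h2, h3, h4, h5, h6⟩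

private theorem tri1 (a u : V) : nrm u ≤ nrm (a - u) + nrm a := by
  have h := nrm_add (-(a - u)) a
  rwa [nrm_neg, neg_sub, sub_add_cancel] at h

private theorem tri2 (a u : V) : nrm a ≤ nrm (a - u) + nrm u := by
  have h := nrm_add (a - u) u
  rwa [sub_add_cancel] at h

/-- Locality of `NB` with a general region. -/
private theorem ev_nb' {s : Set V} (hw : 0 ≤ wj M K N (i + 1))
    (hs : ∀ u y : V, Adj u y → mj K N i ≤ nrm u → nrm u ≤ 2 * mj K N i →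
      u ∈ s ∧ y ∈ s ∧ Ann u 2 (nrm u / 16) ⊆ s) : Ev s (MSTLim.NB M K N i) := by
  rw [nb_eq]
  refine Ev.iUnion fun u => Ev.iUnion fun y => ?_
  by_cases h : Adj u y ∧ mj K N i ≤ nrm u ∧ nrm u ≤ 2 * mj K N i
  · obtain ⟨h1, h2, h3⟩ := hs u y h.1 h.2.1 h.2.2
    have h4 : {w | (Adj u y ∧ mj K N i ≤ nrm u ∧ nrm u ≤ 2 * mj K N i) ∧
        |w u - 1 / 2| < 2 * wj M K N i ∧ |w y - 1 / 2| < 2 * wj M K N i ∧
        w ∈ MxG (1 / 2 - 2 * wj M K N (i + 1)) (1 / 2 + 2 * wj M K N (i + 1)) u 2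
          (nrm u / 16)} = {w : Lab | |w u - 1 / 2| < 2 * wj M K N i} ∩
        ({w : Lab | |w y - 1 / 2| < 2 * wj M K N i} ∩
          MxG (1 / 2 - 2 * wj M K N (i + 1)) (1 / 2 + 2 * wj M K N (i + 1)) u 2
            (nrm u / 16)) := by
      ext w
      simp only [mem_ofPred_eq, mem_inter_iff]
      exact ⟨fun h => h.2, fun h' => ⟨h, h'⟩⟩
    rw [h4]
    exact ((ev_win u _).mono (singleton_subset_iff.2 h1)).inter
      (((ev_win y _).mono (singleton_subset_iff.2 h2)).inter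
        ((ev_mxg (by linarith) u 2 (nrm u / 16)).mono h3))
  · have h4 : {w | (Adj u y ∧ mj K N i ≤ nrm u ∧ nrm u ≤ 2 * mj K N i) ∧
        |w u - 1 / 2| < 2 * wj M K N i ∧ |w y - 1 / 2| < 2 * wj M K N i ∧
        w ∈ MxG (1 / 2 - 2 * wj M K N (i + 1)) (1 / 2 + 2 * wj M K N (i + 1)) u 2
          (nrm u / 16)} = ∅ := by
      ext w
      simp only [mem_ofPred_eq, mem_empty_iff_false, iff_false]
      exact fun h' => h h'.1
    rw [h4]
    exact ev_empty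

theorem ev_nb (h : Scl (rd K N) (wj M K N) n) (hj : 1 ≤ i) (hjn : i + 2 ≤ n) :
    Ev (Ann 0 (rd K N (i + 2) + 1) (rd K N (i - 1))) (MSTLim.NB M K N i) := by
  have h1 := h.anti (by omega : i < i + 1) (by omega)
  have h2 := h.anti (by omega : i + 1 < i + 2) (by omega)
  have h3 := h.anti (by omega : i - 1 < i) (by omega)
  have h4 := h.r0 (i + 2) (by omega)
  refine ev_nb' (h.w0 _ (by omega)).le fun u y huy h5 h6 => ?_
  have h7 := nrm_adj huy 0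
  rw [sub_zero, sub_zero, abs_le] at h7
  unfold mj at h5 h6
  refine ⟨⟨?_, ?_⟩, ⟨?_, ?_⟩, ?_⟩
  · rw [sub_zero]
    omega
  · rw [sub_zero]
    omega
  · rw [sub_zero]
    omega
  · rw [sub_zero]
    omega
  · rintro v ⟨-, h8⟩
    have h9 := tri1 v u
    have h10 := tri2 v u
    refine ⟨?_, ?_⟩ <;> rw [sub_zero] <;> omega

theorem meas_nb (hM : 0 ≤ M) (i : ℕ) : MeasurableSet (MSTLim.NB M K N i) :=
  (ev_nb' (s := univ) (wj_nonneg hM _)
    fun _ _ _ _ _ => ⟨trivial, trivial, subset_univ _⟩).1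

theorem meas_nv (hM : 0 ≤ M) (i j : ℕ) (c : ℝ) :
    MeasurableSet {w | c < ((MSTLim.NV M K N i j w).ncard : ℝ)} := by
  have hT : {u : V | rd K N (j + 1) < nrm u ∧ nrm u ≤ rd K N j}.Finite := by
    have := finite_ball 0 (rd K N j)
    unfold Ball at this
    simp only [sub_zero] at this
    exact this.subset fun u hu => hu.2
  have hw := wj_nonneg (K := K) (N := N) hM (j + 1)
  have h3 := ev_card (s := univ) hT (E := fun u => {w : Lab |
    |w u - 1 / 2| < 2 * wj M K N i ∧ w ∈ MxG (1 / 2 - 2 * wj M K N (j + 1))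
      (1 / 2 + 2 * wj M K N (j + 1)) u 2 (nrm u / 16)}) (fun u _ =>
    Ev.inter ((ev_win u _).mono (subset_univ _))
      ((ev_mxg (by linarith) u 2 (nrm u / 16)).mono (subset_univ _))) c
  have h6 : {w | c < ((MSTLim.NV M K N i j w).ncard : ℝ)} =
      {w | c < ({u ∈ {u : V | rd K N (j + 1) < nrm u ∧
        nrm u ≤ rd K N j} | w ∈ {w : Lab | |w u - 1 / 2| < 2 * wj M K N i ∧
          w ∈ MxG (1 / 2 - 2 * wj M K N (j + 1)) (1 / 2 + 2 * wj M K N (j + 1)) u 2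
            (nrm u / 16)}}.ncard : ℝ)} := by
    ext w
    have h7 : MSTLim.NV M K N i j w = {u ∈ {u : V | rd K N (j + 1) < nrm u ∧
        nrm u ≤ rd K N j} | w ∈ {w : Lab | |w u - 1 / 2| < 2 * wj M K N i ∧
          w ∈ MxG (1 / 2 - 2 * wj M K N (j + 1)) (1 / 2 + 2 * wj M K N (j + 1)) u 2
            (nrm u / 16)}} := by
      ext u
      exact ⟨fun ⟨g1, g2, g3⟩ => ⟨⟨g1, g2⟩, g3⟩, fun ⟨⟨g1, g2⟩, g3⟩ => ⟨g1, g2, g3⟩⟩
    simp only [mem_ofPred_eq, h7]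
  rw [h6]
  exact h3.1

theorem meas_GG (hM : 0 ≤ M) (n i : ℕ) : MeasurableSet (GG M K N B n i) := by
  have h1 : GG M K N B n i = ((MSTLim.NO M K N i)ᶜ ∩ (MSTLim.NB M K N i)ᶜ) ∩
      ⋂ j : ℕ, {w | i ≤ j → j + 2 ≤ n →
        ((MSTLim.NV M K N i j w).ncard : ℝ) ≤ B * (1 / 2) ^ (j - i) / 2} := by
    ext w
    simp only [GG, mem_ofPred_eq, mem_inter_iff, mem_compl_iff, mem_iInter, mem_gdo, mem_gdb,
      and_assoc]
    exact Iff.rfl
  rw [h1]
  refine ((ev_arm _ _ _ _).1.1.compl.inter (meas_nb hM i).compl).inter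
    (MeasurableSet.iInter fun j => ?_)
  by_cases h2 : i ≤ j ∧ j + 2 ≤ n
  · have h3 : {w | i ≤ j → j + 2 ≤ n →
        ((MSTLim.NV M K N i j w).ncard : ℝ) ≤ B * (1 / 2) ^ (j - i) / 2} =
        {w | B * (1 / 2) ^ (j - i) / 2 < ((MSTLim.NV M K N i j w).ncard : ℝ)}ᶜ := by
      ext w
      simp only [mem_ofPred_eq, mem_compl_iff, not_lt]
      exact ⟨fun h => h h2.1 h2.2, fun h _ _ => h⟩
    rw [h3]
    exact (meas_nv hM i j _).compl
  · have h3 : {w | i ≤ j → j + 2 ≤ n →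
        ((MSTLim.NV M K N i j w).ncard : ℝ) ≤ B * (1 / 2) ^ (j - i) / 2} = univ := by
      ext w
      simp only [mem_ofPred_eq, mem_univ, iff_true]
      exact fun h4 h5 => absurd ⟨h4, h5⟩ h2
    rw [h3]
    exact MeasurableSet.univ

/-- The hypotheses on radii and windows. -/
theorem scl_of (hK : 8192 ≤ K) (hN : 0 ≤ N) (hbig : ∀ s ≤ n, 8192 ≤ rd K N s)
    (hw : ∀ s ≤ n, 0 < wj M K N s ∧ wj M K N s ≤ 1 / 16 ∧ 8 * wj M K N s ≤ wj M K N (s + 1)) :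
    Scl (rd K N) (wj M K N) n := by
  refine ⟨hbig, fun j _ => ?_, fun j hj => (hw j hj).1, fun j hj => (hw j hj.le).2.2,
    fun j hj => (hw j hj).2.1.trans_lt (by norm_num)⟩
  have h := rd_mul (k := 8192) (K := K) (N := N) (by exact_mod_cast hK) (by linarith) hN j
  exact_mod_cast h

end Pool.Agent.MSTP
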