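import Pool.Agent.MST.Marg
import Pool.Agent.MSTLim.GDef

/-!
# The margin event for the circle of radius `2 rd K N m + 2`
-/

set_option autoImplicit false

namespace Pool.Agent.MSTP

open MeasureTheory Set Filter Topology
open Pool.Agent.TriPerc Pool.Agent.MST Pool.Agent.MSTLim
open scoped ENNReal

variable {K N : ℝ} {m : ℕ}

/-- **The margin.** -/
theorem mar (hK : 1 < K) (m : ℕ) {ε : ℝ} (hε : 0 < ε) : ∃ e : ℝ, 0 < e ∧ e ≤ 1 / 2 ∧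
    ∀ᶠ N in atTop, ∃ tm um : ℤ, 1 ≤ tm ∧ tm < um ∧ 2 * um ≤ rd K N m + 1 ∧
      e * (2 * (N / K ^ m)) ≤ tm ∧
      P {w | ∃ z, nrm z = 2 * rd K N m + 2 ∧ Four (Op (1 / 2) w) z tm um} ≤
        ENNReal.ofReal ε := by
  obtain ⟨e, he0, he1, N0, h⟩ := marg' (c := 1 / 8) (by norm_num) hε
  have hKm : (0 : ℝ) < K ^ m := pow_pos (by linarith) m
  refine ⟨e, he0, by linarith, ?_⟩
  filter_upwards [eventually_ge_atTop (K ^ m * (|N0| + 1 / e + 16))] with N hN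
  obtain ⟨x, hx⟩ : ∃ x : ℝ, x = N / K ^ m := ⟨_, rfl⟩
  have hx1 : |N0| + 1 / e + 16 ≤ x := by
    rw [hx, le_div_iff₀ hKm]
    linarith
  have hi : 0 < 1 / e := by positivity
  have hx2 : 16 ≤ x := by linarith [abs_nonneg N0]
  have hx3 : N0 ≤ 3 * x := by linarith [le_abs_self N0]
  have hx4 : 1 ≤ e * x := by
    have h1 : 1 / e ≤ x := by linarith [abs_nonneg N0]
    rw [div_le_iff₀ he0] at h1
    linarith
  have f1 : (rd K N m : ℝ) ≤ x := by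
    rw [hx]
    exact Int.floor_le _
  have f2 : x < rd K N m + 1 := by
    rw [hx]
    exact Int.lt_floor_add_one _
  have g1 : ((⌊e * (3 * x)⌋ : ℤ) : ℝ) ≤ e * (3 * x) := Int.floor_le _
  have g2 : e * (3 * x) < (⌊e * (3 * x)⌋ : ℤ) + 1 := Int.lt_floor_add_one _
  have g3 : ((⌊1 / 8 * (3 * x)⌋ : ℤ) : ℝ) ≤ 1 / 8 * (3 * x) := Int.floor_le _
  have g4 : 1 / 8 * (3 * x) < (⌊1 / 8 * (3 * x)⌋ : ℤ) + 1 := Int.lt_floor_add_one _
  have hex : e * x ≤ 1 / 8 / 8 * x := mul_le_mul_of_nonneg_right he1 (by linarith)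
  refine ⟨⌊e * (3 * x)⌋, ⌊1 / 8 * (3 * x)⌋, ?_, ?_, ?_, ?_, h (3 * x) hx3 _ ?_⟩
  · have : (1 : ℝ) ≤ (⌊e * (3 * x)⌋ : ℤ) := by linarith
    exact_mod_cast this
  · have : ((⌊e * (3 * x)⌋ : ℤ) : ℝ) < (⌊1 / 8 * (3 * x)⌋ : ℤ) := by linarith
    exact_mod_cast this
  · have : (2 : ℝ) * (⌊1 / 8 * (3 * x)⌋ : ℤ) ≤ rd K N m + 1 := by linarith
    exact_mod_cast this
  · rw [← hx]
    linarith
  · push_cast
    linarith

end Pool.Agent.MSTP
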