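import Pool.Agent.MSTG.MeasB
import Pool.Agent.MSTP.Defs

/-!
# Part (G) + (S), the probability half: measurability of the final event

(problem MP_e1ab72_pr; helper50)

* `meas_rtg`: reachability in a measurable random relation; `meas_mst`, `meas_path`.
* `meas_tp`: `{w | ∃ f n, TreePath w f n ∧ C f n}` is measurable for every condition `C`; `meas_ps`.
* `meas_six`, `meas_E2`.
-/

set_option autoImplicit false

namespace Pool.Agent.MSTP

open Pool.Agent.TriPerc Pool.Agent.MST Pool.Agent.MSTG Pool.Agent.MSTS Set MeasureTheory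

/-- Reachability in a measurable random relation is measurable. -/
theorem meas_rtg {R : Lab → V → V → Prop} (h : ∀ u v, MeasurableSet {w | R w u v}) (x y : V) :
    MeasurableSet {w | Relation.ReflTransGen (R w) x y} := by
  obtain ⟨A, hA0, hA1⟩ : ∃ A : ℕ → V → Set Lab, (∀ v, A 0 v = {_w | x = v}) ∧
      ∀ n v, A (n + 1) v = ⋃ z : V, A n z ∩ {w | R w z v} :=
    ⟨fun n => Nat.rec (fun v => {_w | x = v}) (fun _ ih v => ⋃ z : V, ih z ∩ {w | R w z v}) n,
      fun _ => rfl, fun _ _ => rfl⟩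
  have hm : ∀ n v, MeasurableSet (A n v) := by
    intro n
    induction n with
    | zero =>
      intro v
      rw [hA0]
      exact MeasurableSet.const _
    | succ n ih =>
      intro v
      rw [hA1]
      exact MeasurableSet.iUnion fun z => (ih z).inter (h z v)
  have e : {w | Relation.ReflTransGen (R w) x y} = ⋃ n : ℕ, A n y := by
    ext w
    simp only [mem_iUnion, mem_ofPred_eq]
    constructor
    · intro hr
      induction hr with
      | refl =>
        refine ⟨0, ?_⟩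
        rw [hA0]
        rfl
      | @tail b c _ hbc ih =>
        obtain ⟨n, hn⟩ := ih
        refine ⟨n + 1, ?_⟩
        rw [hA1]
        exact mem_iUnion.2 ⟨b, hn, hbc⟩
    · rintro ⟨n, hn⟩
      induction n generalizing y with
      | zero =>
        rw [hA0] at hn
        have h1 : x = y := hn
        rw [h1]
      | succ n ih =>
        rw [hA1] at hn
        obtain ⟨z, h1, h2⟩ := mem_iUnion.1 hn
        exact (ih z h1).tail h2
  rw [e]
  exact MeasurableSet.iUnion fun n => hm n y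

theorem meas_U (u v x y : V) : MeasurableSet {w : Lab | MSTLim.U w u v < MSTLim.U w x y} := by
  have hm : ∀ v : V, Measurable fun w : Lab => w v := fun v => measurable_pi_apply v
  have e : {w : Lab | MSTLim.U w u v < MSTLim.U w x y} =
      {w | max (w u) (w v) < max (w x) (w y)} ∪
        ({w | max (w u) (w v) = max (w x) (w y)} ∩ {w | min (w u) (w v) < min (w x) (w y)}) := by
    ext w
    unfold MSTLim.U
    simp only [mem_union, mem_inter_iff, mem_ofPred_eq]
    exact Prod.Lex.toLex_lt_toLex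
  rw [e]
  exact (measurableSet_lt ((hm u).max (hm v)) ((hm x).max (hm y))).union
    ((measurableSet_eq_fun ((hm u).max (hm v)) ((hm x).max (hm y))).inter
      (measurableSet_lt ((hm u).min (hm v)) ((hm x).min (hm y))))

theorem meas_mst (x y : V) : MeasurableSet {w : Lab | MSTLim.MST w x y} := by
  have e : {w : Lab | MSTLim.MST w x y} = {_w : Lab | Adj x y} ∩
      {w | Relation.ReflTransGen (fun u v => Adj u v ∧ MSTLim.U w u v < MSTLim.U w x y) x y}ᶜ := rfl
  rw [e]
  refine (MeasurableSet.const _).inter (meas_rtg (R := fun w u v =>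
    Adj u v ∧ MSTLim.U w u v < MSTLim.U w x y) (fun u v => ?_) x y).compl
  exact (MeasurableSet.const _).inter (meas_U u v x y)

theorem meas_path (f : ℕ → V) (n : ℕ) : MeasurableSet {w : Lab | MSTLim.TreePath w f n} := by
  have e : {w : Lab | MSTLim.TreePath w f n} =
      (⋂ i, ⋂ _ : i < n, {w | MSTLim.MST w (f i) (f (i + 1))}) ∩
        {_w : Lab | ∀ i ≤ n, ∀ j ≤ n, f i = f j → i = j} := by
    ext w
    simp only [mem_inter_iff, mem_iInter, mem_ofPred_eq]
    exact Iff.rfl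
  rw [e]
  exact (MeasurableSet.iInter fun i => MeasurableSet.iInter fun _ => meas_mst _ _).inter
    (MeasurableSet.const _)

/-- Events of tree paths are measurable. -/
theorem meas_tp (C : (ℕ → V) → ℕ → Prop) :
    MeasurableSet {w : Lab | ∃ (f : ℕ → V) (n : ℕ), MSTLim.TreePath w f n ∧ C f n} := by
  have e : {w : Lab | ∃ (f : ℕ → V) (n : ℕ), MSTLim.TreePath w f n ∧ C f n} =
      ⋃ n : ℕ, ⋃ g : Fin (n + 1) → V, ⋃ _ : ∃ f : ℕ → V, (∀ i : Fin (n + 1), f i = g i) ∧ C f n,
        {w | MSTLim.TreePath w (fun k => if h : k < n + 1 then g ⟨k, h⟩ else 0) n} := by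
    ext w
    simp only [mem_iUnion, mem_ofPred_eq, exists_prop]
    have key : ∀ (n : ℕ) (f : ℕ → V) (g : Fin (n + 1) → V), (∀ i : Fin (n + 1), f i = g i) →
        (MSTLim.TreePath w f n ↔
          MSTLim.TreePath w (fun k => if h : k < n + 1 then g ⟨k, h⟩ else 0) n) := by
      intro n f g hfg
      have h1 : ∀ k ≤ n, (fun k => if h : k < n + 1 then g ⟨k, h⟩ else 0) k = f k := by
        intro k hk
        have h2 : k < n + 1 := by omega
        change (if h : k < n + 1 then g ⟨k, h⟩ else 0) = f k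
        rw [dif_pos h2]
        exact (hfg ⟨k, h2⟩).symm
      constructor
      · rintro ⟨a, b⟩
        refine ⟨fun i hi => ?_, fun i hi j hj hij => b i hi j hj ?_⟩
        · rw [h1 i (by omega), h1 (i + 1) (by omega)]
          exact a i hi
        · rwa [h1 i hi, h1 j hj] at hij
      · rintro ⟨a, b⟩
        refine ⟨fun i hi => ?_, fun i hi j hj hij => b i hi j hj ?_⟩
        · have := a i hi
          rwa [h1 i (by omega), h1 (i + 1) (by omega)] at this
        · rwa [h1 i hi, h1 j hj]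
    constructor
    · rintro ⟨f, n, h1, h2⟩
      exact ⟨n, fun i => f i, ⟨f, fun _ => rfl, h2⟩, (key n f _ fun _ => rfl).1 h1⟩
    · rintro ⟨n, g, ⟨f, h1, h2⟩, h3⟩
      exact ⟨f, n, (key n f g h1).2 h3, h2⟩
  rw [e]
  exact MeasurableSet.iUnion fun n => MeasurableSet.iUnion fun g => MeasurableSet.iUnion fun _ =>
    meas_path _ _

theorem meas_ps (e a b : ℝ) : MeasurableSet {w : Lab | MSTLim.PS e w a b} := by
  have h : {w : Lab | MSTLim.PS e w a b} = {w : Lab | ∃ (f : ℕ → V) (n : ℕ),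
      MSTLim.TreePath w f n ∧ ∃ w0 al u1 w1 w2 u3 be w3 : ℕ,
    w0 ≤ al ∧ al ≤ u1 ∧ u1 < w1 ∧ w1 < w2 ∧ w2 < u3 ∧ u3 ≤ be ∧ be ≤ w3 ∧ w3 ≤ n ∧
    nrm (f w0) ≤ a ∧ nrm (f w3) ≤ a ∧ nrm (f w1) ≤ 8 / 5 * a ∧ nrm (f w2) ≤ 8 / 5 * a ∧
    b ≤ nrm (f u1) ∧ b ≤ nrm (f u3) ∧ nrm (f al) ≤ b / e ∧ nrm (f be) ≤ b / e ∧
    (∀ k, al ≤ k → k ≤ u1 → 2 * a < nrm (f k)) ∧
    (∀ k, u3 ≤ k → k ≤ be → 2 * a < nrm (f k)) ∧
    (∀ k, w1 ≤ k → k ≤ w2 → e * b ≤ nrm (f k - f al) ∧ e * b ≤ nrm (f k - f be)) ∧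
    ∑ k ∈ Finset.Ico w1 w2, (MSTLim.ar (f al) (f k) (f (k + 1)) -
      MSTLim.ar (f be) (f k) (f (k + 1))) ≠
      (MSTLim.th (f al) (f w2) - MSTLim.th (f be) (f w2)) -
        (MSTLim.th (f al) (f w1) - MSTLim.th (f be) (f w1))} := by
    ext w
    constructor
    · rintro ⟨f, n, w0, al, u1, w1, w2, u3, be, w3, h1, h2⟩
      exact ⟨f, n, h1, w0, al, u1, w1, w2, u3, be, w3, h2⟩
    · rintro ⟨f, n, h1, w0, al, u1, w1, w2, u3, be, w3, h2⟩
      exact ⟨f, n, w0, al, u1, w1, w2, u3, be, w3, h1, h2⟩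
  rw [h]
  exact meas_tp _

theorem ms_op_sh : MS fun w => Op 0 (sh w) := ms_op (1 / 2)

theorem meas_six (m n : ℤ) : MeasurableSet {w : Lab | Six m n (sh w)} := by
  have hc := (ms_op_sh.inter (Ann 0 m n))
  have hcr : ∀ y, MeasurableSet {w : Lab | Crs 0 m n (sh w) y} := by
    intro y
    have e : {w : Lab | Crs 0 m n (sh w) y} = {_w : Lab | nrm y = n} ∩
        ⋃ y' : V, ⋃ _ : nrm y' = m, {w | Conn (Op 0 (sh w) ∩ Ann 0 m n) y y'} := by
      ext w
      simp only [mem_inter_iff, mem_iUnion, mem_ofPred_eq, exists_prop]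
      exact Iff.rfl
    rw [e]
    exact (MeasurableSet.const _).inter (MeasurableSet.iUnion fun y' =>
      MeasurableSet.iUnion fun _ => hc.conn _ _)
  have e : {w : Lab | Six m n (sh w)} = ⋃ z : Fin 6 → V, ⋂ y : V,
      ({w | Crs 0 m n (sh w) y}ᶜ ∪ ⋃ i : Fin 6, {w | Conn (Op 0 (sh w) ∩ Ann 0 m n) (z i) y}) := by
    ext w
    simp only [mem_iUnion, mem_iInter, mem_union, mem_compl_iff, mem_ofPred_eq]
    constructor
    · rintro ⟨z, h⟩
      refine ⟨z, fun y => ?_⟩
      by_cases hy : Crs 0 m n (sh w) y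
      · exact Or.inr (h y hy)
      · exact Or.inl hy
    · rintro ⟨z, h⟩
      exact ⟨z, fun y hy => (h y).resolve_left fun h1 => h1 hy⟩
  rw [e]
  exact MeasurableSet.iUnion fun z => MeasurableSet.iInter fun y =>
    (hcr y).compl.union (MeasurableSet.iUnion fun i => hc.conn _ _)

/-- The final event is measurable. -/
theorem meas_E2 (R : ℕ → ℤ) (W : ℕ → ℝ) (D t : ℕ) (a b e : ℝ) (q : Fin 9 → ℕ) (S : Finset ℕ) :
    MeasurableSet (E2 R W D t a b e q S) := by
  have h : ∀ (rho lo : ℤ) (m : ℕ → ℤ) (om : ℕ → ℝ) (k : ℕ) (Q : V → V → Prop),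
      MeasurableSet {w : Lab | ∃ (x y : V) (v p z : ℕ → V),
        Chain (sh w) rho lo x y m om k v p z ∧ Q x y} := by
    intro rho lo m om k Q
    have e1 : {w : Lab | ∃ (x y : V) (v p z : ℕ → V), Chain (sh w) rho lo x y m om k v p z ∧ Q x y} =
        {w : Lab | ∃ (x y : V) (v p z : ℕ → V), Q x y ∧
          Chain (fun u => w u - 1 / 2) rho lo x y m om k v p z} := by
      ext w
      constructor
      · rintro ⟨x, y, v, p, z, h1, h2⟩
        exact ⟨x, y, v, p, z, h2, h1⟩
      · rintro ⟨x, y, v, p, z, h1, h2⟩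
        exact ⟨x, y, v, p, z, h2, h1⟩
    rw [e1]
    exact meas_chains (1 / 2) rho lo m om k Q
  exact (meas_ps e a b).inter ((meas_six _ _).inter (h _ _ _ _ _
    fun x y => nrm x ≤ 2 * mg R (q 4) + 1 ∧ mg R (q 2) - 1 ≤ nrm y))

end Pool.Agent.MSTP
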