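import Pool.Agent.MSTLim.GDef
import Pool.Agent.MSTP.Defs

/-!
# The relations between the radii
-/

set_option autoImplicit false

namespace Pool.Agent.MSTP

open Pool.Agent.TriPerc Pool.Agent.MST Pool.Agent.MSTG Pool.Agent.MSTS Set MeasureTheory

variable {R : ℕ → ℤ} {W : ℕ → ℝ} {D t L : ℕ} {q : Fin 9 → ℕ} {S : Finset ℕ} {rho rm tm um : ℤ}

theorem enm_mem {l : ℕ} (hl : l < S.card) : enm S l ∈ S := by
  unfold enm
  rw [dif_pos hl]
  exact Finset.orderEmbOfFin_mem _ _ _

theorem enm_lt {l l' : ℕ} (hll : l < l') (hl : l' < S.card) : enm S l < enm S l' := by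
  unfold enm
  rw [dif_pos hl, dif_pos (hll.trans hl)]
  exact (S.orderEmbOfFin rfl).strictMono hll

theorem enm_surj {i : ℕ} (hi : i ∈ S) : ∃ l < S.card, enm S l = i := by
  have h : i ∈ Set.range (S.orderEmbOfFin rfl) := by
    rw [Finset.range_orderEmbOfFin]
    exact hi
  obtain ⟨l, hl⟩ := h
  refine ⟨l.1, l.2, ?_⟩
  unfold enm
  rw [dif_pos l.2]
  exact hl

/-- The positions, one by one. -/
theorem Pos.all (h : Pos D t q) : (1 ≤ q 0 ∧ q 0 + 4 ≤ D) ∧ (2 * D + 1 ≤ q 1 ∧ q 1 + 4 ≤ 3 * D) ∧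
    (3 * D + 1 ≤ q 2 ∧ q 2 + 4 ≤ 4 * D) ∧ (t + 1 ≤ q 3 ∧ q 3 + 4 ≤ t + D) ∧
    (t + D + 1 ≤ q 4 ∧ q 4 + 4 ≤ t + 2 * D) ∧ (t + 3 * D + 1 ≤ q 5 ∧ q 5 + 4 ≤ t + 4 * D) ∧
    (t + 6 * D + 1 ≤ q 6 ∧ q 6 + 4 ≤ t + 7 * D) ∧ (t + 8 * D + 1 ≤ q 7 ∧ q 7 + 4 ≤ t + 9 * D) ∧
    (t + 11 * D + 1 ≤ q 8 ∧ q 8 + 4 ≤ t + 12 * D) := by
  have h0 := h 0
  have h1 := h 1
  have h2 := h 2
  have h3 := h 3
  have h4 := h 4
  have h5 := h 5
  have h6 := h 6
  have h7 := h 7
  have h8 := h 8
  simp only [lo, Fin.isValue, Matrix.cons_val] at h0 h1 h2 h3 h4 h5 h6 h7 h8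
  omega

theorem geo_ok (h : Scl R W L) (hq : Pos D t q) (hD : 6 * D ≤ t) (hL : t + 13 * D ≤ L)
    (hS : ∀ i ∈ S, 5 * D ≤ i ∧ i + D < t) (hS0 : 0 < S.card) (hr1 : R t ≤ 2 * rho)
    (hr2 : rho ≤ R t + 1) (hm1 : 2 * R (5 * D) ≤ rm) (hm2 : rm ≤ 2 * R (5 * D) + 2)
    (ht1 : 1 ≤ tm) (ht2 : tm < um) (hu : 2 * um ≤ R (5 * D) + 1) :
    GeoOK (geo R D t L rho rm tm um q) (fun l => mg R (enm S l)) S.card := by
  obtain ⟨h0, h1, h2, h3, h4, h5, h6, h7, h8⟩ := hq.all
  have A : ∀ i j, i < j → j ≤ L → 8192 * R j ≤ R i ∧ 8192 ≤ R j := fun i j hij hj =>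
    ⟨h.anti hij hj, h.r0 j hj⟩
  have B : ∀ i j, i ≤ j → j ≤ L → R j ≤ R i := fun i j hij hj => h.anti' hij hj
  have hg : ∀ l < S.card, 5 * D ≤ enm S l ∧ enm S l + D < t := fun l hl => hS _ (enm_mem hl)
  constructor
  case r1 =>
    have := h.r0 L le_rfl
    simp only [geo]
    omega
  case md =>
    have := A (q 8) L (by omega) le_rfl
    simp only [geo, mg]
    omega
  case md0 =>
    have := A (q 8) L (by omega) le_rfl
    simp only [geo, mg]
    omega
  case p1 =>
    have := A (t + 11 * D) (q 8) (by omega) (by omega)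
    simp only [geo, mg]
    omega
  case a5 =>
    have := A (q 7 + 2) (t + 11 * D) (by omega) (by omega)
    simp only [geo]
    omega
  case m5 =>
    have := A (q 7 + 1) (q 7 + 2) (by omega) (by omega)
    simp only [geo, mg]
    omega
  case b5 =>
    have := h.r0 (q 7 + 1) (by omega)
    simp only [geo, mg]
    omega
  case p2 =>
    have := A (t + 7 * D) (q 7 + 1) (by omega) (by omega)
    simp only [geo]
    omega
  case m1 =>
    have := A (q 6) (t + 7 * D) (by omega) (by omega)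
    simp only [geo, mg]
    omega
  case j1 =>
    have := A (t + 6 * D) (q 6) (by omega) (by omega)
    simp only [geo, mg]
    omega
  case a2 =>
    have := A (q 5 + 2) (t + 6 * D) (by omega) (by omega)
    simp only [geo]
    omega
  case m2 =>
    have := A (q 5 + 1) (q 5 + 2) (by omega) (by omega)
    simp only [geo, mg]
    omega
  case b2 =>
    have := h.r0 (q 5 + 1) (by omega)
    simp only [geo, mg]
    omega
  case j2 =>
    have := A (t + 2 * D) (q 5 + 1) (by omega) (by omega)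
    simp only [geo]
    omega
  case m0 =>
    have := A (q 4) (t + 2 * D) (by omega) (by omega)
    simp only [geo, mg]
    omega
  case mi =>
    have := A (q 4) (q 4 + 1) (by omega) (by omega)
    simp only [geo, mg]
    omega
  case mn =>
    have := A (q 3) (q 4) (by omega) (by omega)
    simp only [geo, mg]
    omega
  case rho =>
    have := A t (q 3) (by omega) (by omega)
    simp only [geo, mg]
    omega
  case n1 =>
    simp only [geo]
    omega
  case n2 =>
    have := A (4 * D) t (by omega) (by omega)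
    simp only [geo]
    omega
  case mb =>
    have := A (q 2) (4 * D) (by omega) (by omega)
    simp only [geo, mg]
    omega
  case mM =>
    have := A (q 1) (q 2) (by omega) (by omega)
    simp only [geo, mg]
    omega
  case cM =>
    have := A (2 * D) (q 1) (by omega) (by omega)
    simp only [geo, mg]
    omega
  case c =>
    have := A D (2 * D) (by omega) (by omega)
    simp only [geo]
    omega
  case mL =>
    have := A (q 0) D (by omega) (by omega)
    simp only [geo, mg]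
    omega
  case R =>
    have := A 0 (q 0) (by omega) (by omega)
    simp only [geo, mg]
    omega
  case k0 => exact hS0
  case mm =>
    intro l hl
    have h9 := enm_lt (S := S) (Nat.lt_succ_self l) hl
    have := A (enm S l) (enm S (l + 1)) h9 (by have := hg _ hl; omega)
    simp only [mg]
    omega
  case mrho =>
    intro l hl
    have h9 := hg l hl
    have := A (enm S l) t (by omega) (by omega)
    simp only [geo, mg]
    omega
  case mm0 =>
    intro l hl
    have h9 := hg l hl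
    have := A (enm S l) (q 4) (by omega) (by omega)
    simp only [geo, mg]
    omega
  case mmb =>
    have h9 := hg 0 hS0
    have := A (q 2) (enm S 0) (by omega) (by omega)
    simp only [geo, mg]
    omega
  case tm => exact ht1
  case um => exact ht2
  case rm1 =>
    have h9 := hg 0 hS0
    have := B (5 * D) (enm S 0) (by omega) (by omega)
    have := h.r0 (5 * D) (by omega)
    simp only [geo, mg]
    omega
  case rm2 =>
    have := A (4 * D) (5 * D) (by omega) (by omega)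
    simp only [geo]
    omega

theorem rho_ok {K N : ℝ} (h : 8192 ≤ MSTLim.rd K N t) :
    MSTLim.rd K N t ≤ 2 * ⌊3 / 2 * (N / K ^ t / 2)⌋ ∧
      ⌊3 / 2 * (N / K ^ t / 2)⌋ ≤ MSTLim.rd K N t + 1 := by
  have h1 : (MSTLim.rd K N t : ℝ) ≤ N / K ^ t := Int.floor_le _
  have h2 : N / K ^ t < MSTLim.rd K N t + 1 := Int.lt_floor_add_one _
  have h3 : ((⌊3 / 2 * (N / K ^ t / 2)⌋ : ℤ) : ℝ) ≤ 3 / 2 * (N / K ^ t / 2) := Int.floor_le _
  have h4 : 3 / 2 * (N / K ^ t / 2) < ((⌊3 / 2 * (N / K ^ t / 2)⌋ : ℤ) : ℝ) + 1 :=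
    Int.lt_floor_add_one _
  have h5 : (8192 : ℝ) ≤ MSTLim.rd K N t := by exact_mod_cast h
  constructor
  · have h6 : (MSTLim.rd K N t : ℝ) ≤ 2 * ((⌊3 / 2 * (N / K ^ t / 2)⌋ : ℤ) : ℝ) := by linarith
    exact_mod_cast h6
  · have h6 : ((⌊3 / 2 * (N / K ^ t / 2)⌋ : ℤ) : ℝ) ≤ (MSTLim.rd K N t : ℝ) + 1 := by linarith
    exact_mod_cast h6

theorem pat_ok {K N e : ℝ} (hK : 1 ≤ K) (hN : 0 ≤ N) (h : Scl (MSTLim.rd K N) W L)
    (hq : Pos D t q) (hD : 6 * D ≤ t) (hL : t + 13 * D ≤ L) (he : 0 < e) (he2 : e ≤ 1 / 2)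
    (htm : e * (2 * (N / K ^ (5 * D))) ≤ tm) :
    PatOK (geo (MSTLim.rd K N) D t L ⌊3 / 2 * (N / K ^ t / 2)⌋
      (2 * MSTLim.rd K N (5 * D) + 2) tm um q) (N / K ^ t / 2) (2 * (N / K ^ (5 * D))) e := by
  obtain ⟨-, -, -, -, h4, -⟩ := hq.all
  have h1 : (MSTLim.rd K N t : ℝ) ≤ N / K ^ t := Int.floor_le _
  have h2 : N / K ^ t < MSTLim.rd K N t + 1 := Int.lt_floor_add_one _
  have h3 : (8192 : ℝ) ≤ MSTLim.rd K N t := by exact_mod_cast h.r0 t (by omega)
  have k1 : (MSTLim.rd K N (5 * D) : ℝ) ≤ N / K ^ (5 * D) := Int.floor_le _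
  have k2 : N / K ^ (5 * D) < MSTLim.rd K N (5 * D) + 1 := Int.lt_floor_add_one _
  have k3 : (8192 : ℝ) ≤ MSTLim.rd K N (5 * D) := by exact_mod_cast h.r0 (5 * D) (by omega)
  have k4 : MSTLim.rd K N t ≤ MSTLim.rd K N (5 * D) := h.anti' (by omega) (by omega)
  have k4' : (MSTLim.rd K N t : ℝ) ≤ MSTLim.rd K N (5 * D) := by exact_mod_cast k4
  have k5 : N / K ^ t ≤ N / K ^ (5 * D) :=
    div_le_div_of_nonneg_left hN (pow_pos (by linarith) _) (pow_le_pow_right₀ hK (by omega))
  have k6 : 8192 * MSTLim.rd K N (q 4) ≤ MSTLim.rd K N t := h.anti (by omega) (by omega)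
  have k7 : 2 * mg (MSTLim.rd K N) (q 4) ≤ MSTLim.rd K N t / 4 := by
    have := h.r0 (q 4) (by omega)
    simp only [mg]
    omega
  constructor
  case e0 => exact he
  case a10 => linarith
  case am =>
    have k8 : 4 * (2 * mg (MSTLim.rd K N) (q 4)) ≤ MSTLim.rd K N t := by omega
    have k9 : 4 * (2 * (mg (MSTLim.rd K N) (q 4) : ℝ)) ≤ MSTLim.rd K N t := by exact_mod_cast k8
    simp only [geo]
    linarith
  case rho => simp only [geo]
  case ab => linarith
  case arm =>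
    simp only [geo]
    push_cast
    linarith
  case brm =>
    simp only [geo]
    push_cast
    linarith
  case rmb =>
    simp only [geo]
    push_cast
    rw [le_div_iff₀ he]
    nlinarith
  case tm => simpa only [geo] using htm

end Pool.Agent.MSTP
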