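import Pool.Agent.MSTG.Dec
import Pool.Agent.MSTP.GeoX

/-!
# Part (G) + (S), the probability half: the overlap

(problem MP_e1ab72_pr; helper50)

* `gates_eq`: two chains for the sets `S`, `S'` of gates whose inner ends are joined: `S = S'`.
* `crs_of`: a path from the ball of radius `m` to the outside of the ball of radius `n` contains a crossing.
* `over_E2`: a configuration is in the final events of at most six sets of gates.
-/

set_option autoImplicit false

namespace Pool.Agent.MSTP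

open Pool.Agent.TriPerc Pool.Agent.MST Pool.Agent.MSTG Pool.Agent.MSTS Set MeasureTheory

variable {R : ℕ → ℤ} {W : ℕ → ℝ} {n D t : ℕ} {S S' : Finset ℕ}

/-- The gates are determined by the cluster of the inner end. -/
theorem gates_eq (h : Scl R W n) {f : Lab} (hf : Function.Injective f) {rho lo rho' lo' : ℤ}
    {x y x' y' : V} {v p z v' p' z' : ℕ → V} {c : ℕ}
    (hS : ∀ i ∈ S, c < i ∧ i ≤ n) (hS' : ∀ i ∈ S', c < i ∧ i ≤ n) (hk : 0 < S.card)
    (hk' : 0 < S'.card)
    (hC : Chain f rho lo x y (fun l => mg R (enm S l)) (fun l => W (enm S l)) S.card v p z)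
    (hC' : Chain f rho' lo' x' y' (fun l => mg R (enm S' l)) (fun l => W (enm S' l)) S'.card v' p' z')
    (hy : mg R c - 1 ≤ nrm y) (hy' : mg R c - 1 ≤ nrm y') (hx : Conn (Op 0 f) x x') : S = S' := by
  have key : ∀ (T : Finset ℕ), (∀ i ∈ T, c < i ∧ i ≤ n) →
      (∀ l < T.card, 64 ≤ mg R (enm T l)) ∧
      (∀ l, l + 1 < T.card → 64 * mg R (enm T (l + 1)) ≤ mg R (enm T l)) ∧
      (∀ l < T.card, 0 < W (enm T l)) ∧
      (∀ l, l + 1 < T.card → 8 * W (enm T l) ≤ W (enm T (l + 1))) := by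
    intro T hT
    refine ⟨fun l hl => ?_, fun l hl => ?_, fun l hl => ?_, fun l hl => ?_⟩
    · have h1 := hT _ (enm_mem hl)
      have h2 := h.r0 _ h1.2
      unfold mg
      omega
    · have h1 := hT _ (enm_mem hl)
      have h2 := h.anti (enm_lt (Nat.lt_succ_self l) hl) h1.2
      have h3 := h.r0 _ h1.2
      have h4 : enm T (l + 1) = enm T l.succ := rfl
      rw [← h4] at h2
      unfold mg
      omega
    · exact h.w0 _ (hT _ (enm_mem hl)).2
    · exact h.mono (enm_lt (Nat.lt_succ_self l) hl) (hT _ (enm_mem hl)).2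
  obtain ⟨a1, a2, a3, a4⟩ := key S hS
  obtain ⟨b1, b2, b3, b4⟩ := key S' hS'
  have far : ∀ (T : Finset ℕ), (∀ i ∈ T, c < i ∧ i ≤ n) → 0 < T.card →
      10 * mg R (enm T 0) ≤ mg R c - 1 := by
    intro T hT hT0
    have h1 := hT _ (enm_mem hT0)
    have h2 := h.anti h1.1 h1.2
    have h3 := h.r0 _ h1.2
    unfold mg
    omega
  obtain ⟨e1, e2⟩ := chain_unique hf hC hC' hk hk' hx a1 a2 b1 b2 a3 a4 b3 b4
    ((far S' hS' hk').trans hy) ((far S hS hk).trans hy')
  have e3 : ∀ l < S.card, enm S l = enm S' l := by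
    intro l hl
    have h1 := hC.nv l hl
    have h2 := hC'.nv l (by omega)
    rw [← e2 l hl] at h2
    have h1' : mg R (enm S l) ≤ nrm (v l) ∧ nrm (v l) ≤ 2 * mg R (enm S l) := h1
    have h2' : mg R (enm S' l) ≤ nrm (v l) ∧ nrm (v l) ≤ 2 * mg R (enm S' l) := h2
    have c1 := hS _ (enm_mem hl)
    have c2 := hS' _ (enm_mem (S := S') (l := l) (by omega))
    unfold mg at h1' h2'
    rcases lt_trichotomy (enm S l) (enm S' l) with h3 | h3 | h3
    · have h4 := h.anti h3 c2.2
      have h5 := h.r0 _ c2.2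
      omega
    · exact h3
    · have h4 := h.anti h3 c1.2
      have h5 := h.r0 _ c1.2
      omega
  ext i
  constructor
  · intro hi
    obtain ⟨l, hl, rfl⟩ := enm_surj hi
    rw [e3 l hl]
    exact enm_mem (by omega)
  · intro hi
    obtain ⟨l, hl, rfl⟩ := enm_surj hi
    rw [← e3 l (by omega)]
    exact enm_mem (by omega)

/-- A path from the inside to the outside contains a crossing. -/
theorem crs_of {f : Lab} {m n : ℤ} {x y : V} (h : Conn (Op 0 f) x y) (hx : nrm x ≤ m)
    (hy : n ≤ nrm y) (hmn : m < n) : ∃ b, Crs 0 m n f b ∧ Conn (Op 0 f) x b := by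
  obtain ⟨a, ha, b, hb, hab⟩ := arm_of_conn (z := 0) h.in_comp (by rwa [sub_zero])
    (by rwa [sub_zero]) hmn.le
  have ha' : nrm (a - 0) ≤ m := ha
  have hb' : n ≤ nrm (b - 0) := hb
  have ha2 : m ≤ nrm (a - 0) ∧ nrm (a - 0) ≤ n := hab.left.2
  have hb2 : m ≤ nrm (b - 0) ∧ nrm (b - 0) ≤ n := hab.right.2
  rw [sub_zero] at ha' hb' ha2 hb2
  refine ⟨b, ⟨by omega, a, by omega, ?_⟩, hab.right.1⟩
  have h5 : Conn (Op 0 f ∩ Ann 0 m n) a b :=
    hab.mono fun v hv => ⟨comp_subset hv.1, hv.2⟩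
  exact h5.symm

/-- A configuration is in the final events of at most six sets of gates. -/
theorem over_E2 (h : Scl R W n) (hD : 2 ≤ D) (ht : D ≤ t) (htn : t + 2 * D ≤ n) {q : Fin 9 → ℕ}
    (hq : Pos D t q) {a b e : ℝ} : ∀ᵐ w ∂P, ∀ k, 0 < k → ∀ T : Finset (Finset ℕ),
      (∀ S ∈ T, S.card = k ∧ (∀ i ∈ S, 5 * D ≤ i ∧ i + D < t) ∧ w ∈ E2 R W D t a b e q S) →
      T.card ≤ 6 := by
  filter_upwards [ae_label 0] with w hw
  have hf : Function.Injective (sh w) := by
    intro u v huv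
    by_contra hne
    apply hw.2 u v hne
    have h1 : w u - 1 / 2 = w v - 1 / 2 := huv
    linarith
  intro k hk T hT
  by_contra hcard
  rw [not_le] at hcard
  have hq2 : q 2 + 4 ≤ 4 * D := by
    have h1 := (hq 2).2
    have h2 : lo D t 2 = 3 * D := rfl
    omega
  have hq4 : t + D + 1 ≤ q 4 ∧ q 4 + 4 ≤ t + D + D := by
    have h1 := hq 4
    have h2 : lo D t 4 = t + D := rfl
    omega
  obtain ⟨S0, hS0⟩ : ∃ S0, S0 ∈ T := by
    by_contra hno
    push Not at hno
    rw [Finset.eq_empty_of_forall_notMem hno] at hcard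
    simp at hcard
  obtain ⟨-, -, -, ⟨zz, hzz⟩, -⟩ := hT S0 hS0
  have key : ∀ S ∈ T, ∃ i : Fin 6, ∃ (rho lo : ℤ) (x y : V) (v p z : ℕ → V),
      Chain (sh w) rho lo x y (fun l => mg R (enm S l))
        (fun l => W (enm S l)) S.card v p z ∧ mg R (q 2) - 1 ≤ nrm y ∧
      Conn (Op 0 (sh w)) x (zz i) := by
    intro S hS
    obtain ⟨hc, hi, -, -, x, y, v, p, z, h1, h2, h3⟩ := hT S hS
    have hk1 : 0 < S.card := by omega
    have h4 := h1.px hk1
    have h5 := h1.nv (S.card - 1) (by omega)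
    have h5' : mg R (enm S (S.card - 1)) ≤ nrm (v (S.card - 1)) := h5.1
    have h6 := nrm_adj (h1.vp (S.card - 1) (by omega)) 0
    rw [sub_zero, sub_zero, abs_le] at h6
    have h7 := hi _ (enm_mem (S := S) (l := S.card - 1) (by omega))
    have h8 := h.anti (i := enm S (S.card - 1)) (j := t - D) (by omega) (by omega)
    have h9 := h.r0 (t - D) (by omega)
    have h10 := h.anti (i := t) (j := q 4) (by omega) (by omega)
    have h11 := h.r0 (q 4) (by omega)
    have h12 := h.anti (i := t - D) (j := t) (by omega) (by omega)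
    have h13 := h.r0 t (by omega)
    obtain ⟨b', hb1, hb2⟩ := crs_of (m := R t + 1) (n := R (t - D)) h4.symm
      (by unfold mg at h2; omega) (by unfold mg at h5'; omega) (by omega)
    obtain ⟨i, hi'⟩ := hzz b' hb1
    exact ⟨i, _, _, x, y, v, p, z, h1, h3, hb2.trans (hi'.symm.mono inter_subset_left)⟩
  choose! ix hix using key
  have hcard' : (Finset.univ : Finset (Fin 6)).card < T.card := by
    rw [Finset.card_univ, Fintype.card_fin]
    exact hcard
  obtain ⟨S1, hS1, S2, hS2, hne, heq⟩ := Finset.exists_ne_map_eq_of_card_lt_of_maps_to hcard'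
    (f := ix) fun S _ => Finset.mem_univ _
  obtain ⟨rho, lo, x, y, v, p, z, h1, h2, h3⟩ := hix S1 hS1
  obtain ⟨rho', lo', x', y', v', p', z', h1', h2', h3'⟩ := hix S2 hS2
  have g1 := (hT S1 hS1).1
  have g2 := (hT S2 hS2).1
  refine hne (gates_eq h hf (c := q 2) (fun i hi => ?_) (fun i hi => ?_) (by omega)
    (by omega) h1 h1' h2 h2' (h3.trans ?_))
  · have := (hT S1 hS1).2.1 i hi
    omega
  · have := (hT S2 hS2).2.1 i hi
    omega
  · rw [heq]
    exact h3'.symm

end Pool.Agent.MSTP
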