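import Pool.Agent.MSTP.GeoX

/-!
# The final labels are in the final event
-/

set_option autoImplicit false

namespace Pool.Agent.MSTP

open Pool.Agent.TriPerc Pool.Agent.MST Pool.Agent.MSTG Pool.Agent.MSTS Set MeasureTheory

variable {R : ℕ → ℤ} {W : ℕ → ℝ} {D t L : ℕ} {q : Fin 9 → ℕ} {S : Finset ℕ} {rho rm tm um : ℤ}
  {w F : Lab} {lam : V → ℝ} {a b e : ℝ}

private theorem sh_add (F : Lab) : sh (fun u => F u + 1 / 2) = F := by
  funext u
  simp only [sh]
  ring

theorem mem_E2 (h : Scl R W L) (hq : Pos D t q) (hL : t + 13 * D ≤ L)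
    (hS : ∀ i ∈ S, 5 * D ≤ i ∧ i + D < t) (hS0 : 0 < S.card) (hinj : Function.Injective w)
    (hEF : EF (1 / 2) (R L + 1) (R 0) w) (hcl : Clean (1 / 2) (R t + 1) (R (t - D)) w)
    (hO : SOut (geo R D t L rho rm tm um q) lam (sh w) F (fun l => mg R (enm S l))
      (fun l => W (enm S l)) S.card a b e) :
    (fun u => F u + 1 / 2) ∈ E2 R W D t a b e q S := by
  have hD0 : 0 < D := by
    have := hq 0
    omega
  have hq4 := (hq.all).2.2.2.2.1
  have hl := hS _ (enm_mem (S := S) (l := S.card - 1) (by omega))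
  have a1 := h.anti (i := t) (j := q 4) (by omega) (by omega)
  have a2 := h.anti (i := t - D) (j := t) (by omega) (by omega)
  have a3 := h.anti (i := enm S (S.card - 1)) (j := t - D) (by omega) (by omega)
  have a4 := h.anti' (i := 0) (j := t - D) (by omega) (by omega)
  have a5 := h.anti (i := t) (j := L) (by omega) le_rfl
  have a6 := h.r0 L le_rfl
  have a7 := h.r0 (q 4) (by omega)
  refine ⟨sh_ps.1 ?_, ?_, ?_⟩
  · rw [sh_add]
    exact hO.ps
  · rw [sh_add]
    have key : Op 0 F ∩ Ann 0 (R t + 1) (R (t - D)) = Op (1 / 2) w ∩ Ann 0 (R t + 1) (R (t - D)) := by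
      rw [← sh_op0]
      ext u
      simp only [mem_inter_iff]
      constructor
      · rintro ⟨h1, h2⟩
        refine ⟨?_, h2⟩
        have h3 : R t + 1 ≤ nrm (u - 0) ∧ nrm (u - 0) ≤ R (t - D) := h2
        rw [sub_zero] at h3
        exact (hO.sgn u (by simp only [geo, mg]; omega) (by simp only [mg]; omega)).1 h1
      · rintro ⟨h1, h2⟩
        refine ⟨?_, h2⟩
        have h3 : R t + 1 ≤ nrm (u - 0) ∧ nrm (u - 0) ≤ R (t - D) := h2
        rw [sub_zero] at h3
        exact (hO.sgn u (by simp only [geo, mg]; omega) (by simp only [mg]; omega)).2 h1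
    obtain ⟨z, hz⟩ := ef_iff.1 hEF
    obtain ⟨z', hz', -⟩ := efz_restr hinj (m' := R t + 1) (n' := R (t - D)) (by omega) (by omega)
      (by omega) a4 hz
    refine ⟨z', fun y hy => ?_⟩
    have hy' : Crs (1 / 2) (R t + 1) (R (t - D)) w y := by
      unfold Crs at hy ⊢
      rwa [key] at hy
    obtain ⟨i, hi⟩ := hcl z' hz' y hy'
    refine ⟨i, ?_⟩
    rw [key]
    exact hi
  · rw [sh_add]
    obtain ⟨x, y, v, p, z, h1, h2, h3⟩ := hO.ch
    exact ⟨x, y, v, p, z, h1, h2, h3⟩

end Pool.Agent.MSTP
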