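import Pool.Agent.MSTP.GeoX

/-!
# The good event from the events of the zones and gates
-/

set_option autoImplicit false

namespace Pool.Agent.MSTP

open Pool.Agent.TriPerc Pool.Agent.MST Pool.Agent.MSTG Pool.Agent.MSTS Set MeasureTheory

variable {R : ℕ → ℤ} {W : ℕ → ℝ} {D t L : ℕ} {q : Fin 9 → ℕ} {S : Finset ℕ} {rho rm tm um : ℤ}
  {w : Lab}

theorem act_S {i : ℕ} (hi : i ∈ S) : act S q i = q 4 := by
  unfold act
  rw [if_pos hi]

theorem q_not (hq : Pos D t q) (hS : ∀ i ∈ S, 5 * D ≤ i ∧ i + D < t)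
    (z : Fin 9) : q z ∉ S := by
  intro h
  have h1 := hS _ h
  obtain ⟨h0, h1, h2, h3, h4, h5, h6, h7, h8⟩ := hq.all
  fin_cases z <;> simp only [Fin.isValue, Fin.mk_zero, Fin.mk_one, Fin.reduceFinMk] at h h1 <;> omega

theorem its (hq : Pos D t q) (hL : t + 13 * D ≤ L)
    (hS : ∀ i ∈ S, 5 * D ≤ i ∧ i + D < t) : Its (itm S q) (act S q) L := by
  obtain ⟨h0, h1, h2, h3, h4, h5, h6, h7, h8⟩ := hq.all
  have key : ∀ i ∈ itm S q, i ≤ act S q i ∧ act S q i + 2 ≤ L := by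
    intro i hi
    by_cases hiS : i ∈ S
    · rw [act_S hiS]
      have := hS i hiS
      omega
    · obtain ⟨z, -, rfl⟩ := Finset.mem_image.1 ((Finset.mem_union.1 hi).resolve_left hiS)
      have hz : q z + 4 ≤ t + 12 * D := by
        fin_cases z <;> simp only [Fin.isValue, Fin.mk_zero, Fin.mk_one, Fin.reduceFinMk] <;> omega
      unfold act
      rw [if_neg hiS]
      split_ifs <;> omega
  exact ⟨fun i hi => (key i hi).1, fun i hi => (key i hi).2⟩

/-- The profile is at least the window of the item. -/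
theorem lamS_ge {i : ℕ} {u : V} (hi : i ∈ itm S q) (h1 : R (act S q i + 1) < nrm u)
    (h2 : nrm u ≤ R i) : W i ≤ lamS R W S q u :=
  prof_ge hi h1 h2

private theorem arm_low {lam : V → ℝ} {m : ℤ} {a : ℝ}
    (h : ∀ u, m ≤ nrm u → nrm u ≤ 2 * m → a ≤ lam u)
    (hA : ¬ Arm (Op (1 / 2 - a) w) 0 m (2 * m)) : ¬ Arm (Low lam (sh w)) 0 m (2 * m) := by
  rintro ⟨x, hx, y, hy, hxy⟩
  refine hA ⟨x, hx, y, hy, hxy.mono ?_⟩
  rintro v ⟨hv1, hv2⟩
  refine ⟨?_, hv2⟩
  have hv3 : m ≤ nrm (v - 0) ∧ nrm (v - 0) ≤ 2 * m := hv2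
  rw [sub_zero] at hv3
  have h1 := h v hv3.1 hv3.2
  have h2 : w v - 1 / 2 ≤ - lam v := hv1
  change w v ≤ 1 / 2 - a
  linarith

private theorem arm_upp {lam : V → ℝ} {m : ℤ} {a : ℝ} (ha : 0 < a)
    (h : ∀ u, m ≤ nrm u → nrm u ≤ 2 * m → a ≤ lam u)
    (hA : ¬ Arm (Cl (1 / 2 + a) w) 0 m (2 * m)) : ¬ Arm (Upp lam (sh w))ᶜ 0 m (2 * m) := by
  rintro ⟨x, hx, y, hy, hxy⟩
  refine hA ⟨x, hx, y, hy, hxy.mono ?_⟩
  rintro v ⟨hv1, hv2⟩
  refine ⟨?_, hv2⟩
  have hv3 : m ≤ nrm (v - 0) ∧ nrm (v - 0) ≤ 2 * m := hv2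
  rw [sub_zero] at hv3
  have h1 := h v hv3.1 hv3.2
  have h2 : ¬ (w v - 1 / 2 ≤ - lam v ∨ w v - 1 / 2 < 2 * lam v) := hv1
  push Not at h2
  change 1 / 2 + a < w v
  linarith [h2.2]

/-- **The good event.** -/
theorem sgood (h : Scl R W L) (hq : Pos D t q) (hD : 6 * D ≤ t) (hL : t + 13 * D ≤ L)
    (hS : ∀ i ∈ S, 5 * D ≤ i ∧ i + D < t) (h01 : ∀ u, 0 ≤ w u ∧ w u ≤ 1)
    (hinj : ∀ u v : V, u ≠ v → ∀ i j : Fin 4 × Fin 6 × Fin 2,
      cmap i (lamS R W S q u) (w u - 1 / 2) ≠ cmap j (lamS R W S q v) (w v - 1 / 2))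
    (hfin : ∀ u, (comp (Op 0 (sh w)) u).Finite) (hEF : EF (1 / 2) (R L + 1) (R 0) w)
    (hz : ∀ z, ¬ Arm (Op (1 / 2 - W (q z)) w) 0 (mg R (q z)) (2 * mg R (q z)) ∧
      ¬ Arm (Cl (1 / 2 + W (q z)) w) 0 (mg R (q z)) (2 * mg R (q z)) ∧
      ¬ Arm (Cl (1 / 2 + W (q z)) w) 0 (mg R (q z + 1)) (2 * mg R (q z + 1)))
    (hcl : ∀ s' t', s' + D ≤ t' → t' ≤ L → Clean (1 / 2) (R t' + 1) (R s') w)
    (hmar : ∀ z, nrm z = rm → ¬ Four (Op (1 / 2) w) z tm um)
    (hg : ∀ i ∈ S, w ∈ MSTG.GdO R W i ∧ w ∈ MSTG.GdB R W i) :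
    SGood (geo R D t L rho rm tm um q) (lamS R W S q) (sh w) (W (q 5))
      (fun l => mg R (enm S l)) (fun l => W (enm S l)) S.card := by
  obtain ⟨h0, h1, h2, h3, h4, h5, h6, h7, h8⟩ := hq.all
  have hI := its hq hL hS
  have A : ∀ i j, i < j → j ≤ L → 8192 * R j ≤ R i ∧ 8192 ≤ R j := fun i j hij hj =>
    ⟨h.anti hij hj, h.r0 j hj⟩
  have B : ∀ i j, i ≤ j → j ≤ L → R j ≤ R i := fun i j hij hj => h.anti' hij hj
  have hgg : ∀ l < S.card, 5 * D ≤ enm S l ∧ enm S l + D < t := fun l hl => hS _ (enm_mem hl)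
  have hG : GSt (lamS R W S q) (sh w) (2 * R (q 4 + 1)) (fun l => mg R (enm S l))
      (fun l => W (enm S l)) S.card :=
    gst_of h hI (s := enm S) (i0 := q 4) (fun l hl => ⟨Finset.mem_union_left _ (enm_mem hl),
      act_S (enm_mem hl), by have := hgg l hl; omega⟩)
      (fun l hl => enm_lt (Nat.lt_succ_self l) hl) (by omega)
      (fun l hl => (hg _ (enm_mem hl)).1) (fun l hl => (hg _ (enm_mem hl)).2)
  have hitm : ∀ z, q z ∈ itm S q := fun z =>
    Finset.mem_union_right _ (Finset.mem_image_of_mem q (Finset.mem_univ z))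
  -- the windows on the zones
  have hact : ∀ z, q z ≤ act S q (q z) := fun z => hI.ic _ (hitm z)
  have hactn : ∀ z, act S q (q z) + 2 ≤ L := fun z => hI.cn _ (hitm z)
  have lz : ∀ z, ∀ u, mg R (q z) ≤ nrm u → nrm u ≤ 2 * mg R (q z) →
      W (q z) ≤ lamS R W S q u := by
    intro z u k1 k2
    have k3 := hact z
    have k4 := hactn z
    have k5 := A (q z) (act S q (q z) + 1) (by omega) (by omega)
    simp only [mg] at k1 k2
    exact lamS_ge (hitm z) (by omega) (by omega)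
  have a5 : act S q (q 5) = q 5 + 2 := by
    unfold act
    rw [if_neg (q_not hq hS 5), if_pos (Or.inl rfl)]
  have a7 : act S q (q 7) = q 7 + 2 := by
    unfold act
    rw [if_neg (q_not hq hS 7), if_pos (Or.inr rfl)]
  have lj : ∀ z, act S q (q z) = q z + 2 → q z + 4 ≤ L → ∀ u, R (q z + 2) ≤ nrm u →
      nrm u ≤ R (q z + 1) + 1 → W (q z) ≤ lamS R W S q u := by
    intro z k0 k1 u k2 k3
    have k5 := A (q z + 2) (q z + 3) (by omega) (by omega)
    have k6 := A (q z) (q z + 1) (by omega) (by omega)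
    refine lamS_ge (hitm z) ?_ (by omega)
    rw [k0, (by omega : q z + 2 + 1 = q z + 3)]
    omega
  have lj' : ∀ z, act S q (q z) = q z + 2 → q z + 4 ≤ L → ∀ u, mg R (q z + 1) ≤ nrm u →
      nrm u ≤ 2 * mg R (q z + 1) → W (q z) ≤ lamS R W S q u := by
    intro z k0 k1 u k2 k3
    have k5 := A (q z + 1) (q z + 2) (by omega) (by omega)
    simp only [mg] at k2 k3
    exact lj z k0 k1 u (by omega) (by omega)
  constructor
  case lam0 => exact hG.lam0
  case lam1 => exact hG.lam1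
  case f0 =>
    intro u
    have := (h01 u).1
    simp only [sh]
    linarith
  case f1 =>
    intro u
    have := (h01 u).2
    simp only [sh]
    linarith
  case inj => exact hinj
  case fin => exact hfin
  case ef =>
    rw [sh_ef]
    exact hEF
  case cd => exact arm_low (lz 8) (hz 8).1
  case c1 => exact arm_low (lz 6) (hz 6).1
  case c0 => exact arm_low (lz 4) (hz 4).1
  case cM => exact arm_low (lz 1) (hz 1).1
  case u5 => exact arm_upp (h.w0 _ (by omega)) (lj' 7 a7 (by omega)) (hz 7).2.2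
  case u2 => exact arm_upp (h.w0 _ (by omega)) (lj' 5 a5 (by omega)) (hz 5).2.2
  case ub => exact arm_upp (h.w0 _ (by omega)) (lz 2) (hz 2).2.1
  case uL => exact arm_upp (h.w0 _ (by omega)) (lz 0) (hz 0).2.1
  case J0 => exact h.w0 _ (by omega)
  case J2 =>
    intro u k1 k2
    simp only [geo] at k1 k2
    exact lj 5 a5 (by omega) u k1.le k2.le
  case J5 =>
    intro u k1 k2
    simp only [geo] at k1 k2
    exact (h.mono' (by omega) (by omega)).trans (lj 7 a7 (by omega) u k1.le k2.le)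
  case nn =>
    rintro ⟨x, hx, y, hy, hxy⟩
    refine (hz 3).1 ⟨x, hx, y, hy, hxy.mono ?_⟩
    rintro v ⟨hv1, hv2⟩
    refine ⟨?_, hv2⟩
    have hv3 : w v - 1 / 2 < - W (q 5) / 2 := hv1
    have hv4 := h.mono (by omega : q 3 < q 5) (by omega)
    have hv5 := h.w0 (q 3) (by omega)
    change w v ≤ 1 / 2 - W (q 3)
    linarith
  case clM => exact sh_clean.2 (hcl _ _ (by omega) (by omega))
  case cl2 => exact sh_clean.2 (hcl _ _ (by omega) (by omega))
  case cl2i => exact sh_clean.2 (hcl _ _ (by omega) (by omega))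
  case cl2o => exact sh_clean.2 (hcl _ _ (by omega) (by omega))
  case cl5 => exact sh_clean.2 (hcl _ _ (by omega) (by omega))
  case cl5i => exact sh_clean.2 (hcl _ _ (by omega) (by omega))
  case cl5o => exact sh_clean.2 (hcl _ _ (by omega) (by omega))
  case cln => exact sh_clean.2 (hcl _ _ (by omega) (by omega))
  case mar =>
    intro z hz'
    rw [sh_op0]
    exact hmar z hz'
  case gst => exact hG

private theorem geo2 (i c : ℕ) : ∑ j ∈ Finset.Icc i c, (1 / 2 : ℝ) ^ (j - i) / 2 ≤ 1 := by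
  have h : ∀ c, ∑ j ∈ Finset.Icc i (i + c), (1 / 2 : ℝ) ^ (j - i) / 2 = 1 - (1 / 2) ^ (c + 1) := by
    intro c
    induction c with
    | zero =>
      simp
      norm_num
    | succ c ih =>
      rw [← add_assoc, Finset.sum_Icc_succ_top (by omega), ih,
        (by omega : i + c + 1 - i = c + 1)]
      ring
  rcases le_or_gt i c with h1 | h1
  · obtain ⟨d, rfl⟩ : ∃ d, c = i + d := ⟨c - i, by omega⟩
    rw [h d]
    have : (0 : ℝ) < (1 / 2) ^ (d + 1) := by positivity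
    linarith
  · rw [Finset.Icc_eq_empty (by omega), Finset.sum_empty]
    exact zero_le_one

/-- The number of vertices which may be relabelled. -/
theorem fnS_card (h : Scl R W L) (hq : Pos D t q) (hL : t + 13 * D ≤ L)
    (hS : ∀ i ∈ S, 5 * D ≤ i ∧ i + D < t) {B : ℝ} (hB0 : 0 ≤ B)
    (hB : ∀ i ∈ itm S q, ∀ j, i ≤ j → j ≤ act S q i →
      ((MSTG.NV R W i j w).ncard : ℝ) ≤ B * (1 / 2) ^ (j - i) / 2) :
    (FN (lamS R W S q) (sh w)).Finite ∧
      ((FN (lamS R W S q) (sh w)).ncard : ℝ) ≤ 7 * (B * (S.card + 9)) := by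
  have hI := its hq hL hS
  obtain ⟨h1, h2⟩ := fn_card (as_fin h hI w)
  refine ⟨h1, ?_⟩
  have h3 := as_card h hI w
  have h4 : ((∑ i ∈ itm S q, ∑ j ∈ Finset.Icc i (act S q i), (MSTG.NV R W i j w).ncard : ℕ) : ℝ) ≤
      (itm S q).card * B := by
    push_cast
    rw [← nsmul_eq_mul]
    refine Finset.sum_le_card_nsmul _ _ _ fun i hi => ?_
    calc ∑ j ∈ Finset.Icc i (act S q i), ((MSTG.NV R W i j w).ncard : ℝ)
        ≤ ∑ j ∈ Finset.Icc i (act S q i), B * (1 / 2) ^ (j - i) / 2 :=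
          Finset.sum_le_sum fun j hj => hB i hi j (Finset.mem_Icc.1 hj).1 (Finset.mem_Icc.1 hj).2
      _ = B * ∑ j ∈ Finset.Icc i (act S q i), (1 / 2 : ℝ) ^ (j - i) / 2 := by
          rw [Finset.mul_sum]
          refine Finset.sum_congr rfl fun j _ => ?_
          ring
      _ ≤ B * 1 := mul_le_mul_of_nonneg_left (geo2 _ _) hB0
      _ = B := mul_one B
  have h5 : ((itm S q).card : ℝ) ≤ S.card + 9 := by
    have h6 : (itm S q).card ≤ S.card + 9 := by
      unfold itm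
      refine (Finset.card_union_le _ _).trans (Nat.add_le_add_left ?_ _)
      refine Finset.card_image_le.trans ?_
      simp
    exact_mod_cast h6
  have h7 : ((FN (lamS R W S q) (sh w)).ncard : ℝ) ≤
      7 * ((∑ i ∈ itm S q, ∑ j ∈ Finset.Icc i (act S q i), (MSTG.NV R W i j w).ncard : ℕ) : ℝ) := by
    have h8 : (FN (lamS R W S q) (sh w)).ncard ≤
        7 * ∑ i ∈ itm S q, ∑ j ∈ Finset.Icc i (act S q i), (MSTG.NV R W i j w).ncard :=
      h2.trans (Nat.mul_le_mul_left 7 h3)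
    exact_mod_cast h8
  refine h7.trans (mul_le_mul_of_nonneg_left (h4.trans ?_) (by norm_num))
  rw [mul_comm B]
  exact mul_le_mul_of_nonneg_right h5 hB0

end Pool.Agent.MSTP
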