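import Pool.Agent.MSTLim.Moment
import Pool.Agent.MSTLim.Runs

/-!
# Bad zones

`Zb M K N B j`: the zone of the block `j` is bad.  It depends on the blocks `j - 1, …, j + 3`.
-/

set_option autoImplicit false

namespace Pool.Agent.MSTP

open MeasureTheory Set Filter Topology
open Pool.Agent.TriPerc Pool.Agent.MST Pool.Agent.MSTLim
open scoped ENNReal

variable {M K N B : ℝ} {i j n : ℕ}

/-- The zone of the block `j` is bad. -/
def Zb (M K N B : ℝ) (j : ℕ) : Set Lab :=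
  MSTLim.NO M K N j ∪ (MSTLim.NC M K N j ∪ ({w | Arm (Cl (1 / 2 + wj M K N j) w) 0 (mj K N (j + 1))
    (2 * mj K N (j + 1))} ∪ ⋃ m : Fin 3,
      {w | B * (1 / 2) ^ (m : ℕ) / 2 < ((NV M K N j (j + m) w).ncard : ℝ)}))

private theorem tri1 (a u : V) : nrm u ≤ nrm (a - u) + nrm a := by
  have h := nrm_add (-(a - u)) a
  rwa [nrm_neg, neg_sub, sub_add_cancel] at h

private theorem tri2 (a u : V) : nrm a ≤ nrm (a - u) + nrm u := by
  have h := nrm_add (a - u) u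
  rwa [sub_add_cancel] at h

/-- The number of mixed vertices of the block `j` depends on the blocks `j - 1, j, j + 1`. -/
theorem ev_nv (hw : 0 ≤ wj M K N (j + 1)) {r s : ℤ} (h1 : 2 * r ≤ rd K N (j + 1))
    (h2 : 2 * rd K N j ≤ s) (h0 : 0 ≤ r) (c : ℝ) :
    Ev (Ann 0 (r + 1) s) {w | c < ((NV M K N i j w).ncard : ℝ)} := by
  have hT : {u : V | rd K N (j + 1) < nrm u ∧ nrm u ≤ rd K N j}.Finite := by
    have := finite_ball 0 (rd K N j)
    unfold Ball at this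
    simp only [sub_zero] at this
    exact this.subset fun u hu => hu.2
  have h3 := ev_card (s := Ann 0 (r + 1) s) hT (E := fun u => {w : Lab |
    |w u - 1 / 2| < 2 * wj M K N i ∧ w ∈ MxG (1 / 2 - 2 * wj M K N (j + 1))
      (1 / 2 + 2 * wj M K N (j + 1)) u 2 (nrm u / 16)}) (fun u hu => ?_) c
  · have h6 : {w | c < ((NV M K N i j w).ncard : ℝ)} =
        {w | c < ({u ∈ {u : V | rd K N (j + 1) < nrm u ∧
          nrm u ≤ rd K N j} | w ∈ {w : Lab | |w u - 1 / 2| < 2 * wj M K N i ∧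
            w ∈ MxG (1 / 2 - 2 * wj M K N (j + 1)) (1 / 2 + 2 * wj M K N (j + 1)) u 2
              (nrm u / 16)}}.ncard : ℝ)} := by
      ext w
      have h7 : NV M K N i j w = {u ∈ {u : V | rd K N (j + 1) < nrm u ∧
          nrm u ≤ rd K N j} | w ∈ {w : Lab | |w u - 1 / 2| < 2 * wj M K N i ∧
            w ∈ MxG (1 / 2 - 2 * wj M K N (j + 1)) (1 / 2 + 2 * wj M K N (j + 1)) u 2
              (nrm u / 16)}} := by
        ext u
        exact ⟨fun ⟨g1, g2, g3⟩ => ⟨⟨g1, g2⟩, g3⟩, fun ⟨⟨g1, g2⟩, g3⟩ => ⟨g1, g2, g3⟩⟩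
      simp only [mem_ofPred_eq, h7]
    rw [h6]
    exact h3
  · obtain ⟨h4, h5⟩ := hu
    refine Ev.inter ((ev_win u _).mono ?_) ((ev_mxg (by linarith) u 2 (nrm u / 16)).mono ?_)
    · rintro v rfl
      refine ⟨?_, ?_⟩ <;> rw [sub_zero] <;> omega
    · rintro v ⟨h6, h7⟩
      have h8 := tri1 v u
      have h9 := tri2 v u
      refine ⟨?_, ?_⟩ <;> rw [sub_zero] <;> omega

/-- The bad zone event depends on five blocks. -/
theorem ev_zb (hK : 1024 ≤ K) (hN : 0 ≤ N) (hj : 1 ≤ j) (hbig : ∀ s ≤ j + 4, 64 ≤ rd K N s)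
    (hw : ∀ s ≤ j + 3, 0 ≤ wj M K N s) :
    Ev (Ann 0 (rd K N (j + 4) + 1) (rd K N (j - 1))) (Zb M K N B j) := by
  have hK1 : 1 < K := by linarith
  have hm : ∀ s, 1024 * rd K N (s + 1) ≤ rd K N s := fun s =>
    rd_mul (k := 1024) (by exact_mod_cast hK) hK1 hN s
  have a0 := hm (j - 1)
  rw [Nat.sub_add_cancel hj] at a0
  have a1 := hm j
  have a2 := hm (j + 1)
  have a3 := hm (j + 2)
  have a4 := hm (j + 3)
  rw [(by omega : j + 1 + 1 = j + 2)] at a2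
  rw [(by omega : j + 2 + 1 = j + 3)] at a3
  rw [(by omega : j + 3 + 1 = j + 4)] at a4
  have b0 := hbig j (by omega)
  have b1 := hbig (j + 1) (by omega)
  have b2 := hbig (j + 2) (by omega)
  have b3 := hbig (j + 3) (by omega)
  have b4 := hbig (j + 4) (by omega)
  unfold Zb MSTLim.NO MSTLim.NC
  refine Ev.union ((ev_arm _ _ _ _).1.mono (ann_sub ?_ ?_))
    (Ev.union ((ev_arm_cl _ _ _ _).1.mono (ann_sub ?_ ?_))
    (Ev.union ((ev_arm_cl _ _ _ _).1.mono (ann_sub ?_ ?_)) ?_))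
  · unfold mj
    omega
  · unfold mj
    omega
  · unfold mj
    omega
  · unfold mj
    omega
  · unfold mj
    omega
  · unfold mj
    omega
  · refine Ev.iUnion fun m => ?_
    have hm3 := m.2
    have e1 : 2 * rd K N (j + 4) ≤ rd K N (j + (m : ℕ) + 1) := by
      obtain h | h | h : (m : ℕ) = 0 ∨ (m : ℕ) = 1 ∨ (m : ℕ) = 2 := by omega
      · rw [h, add_zero]
        omega
      · rw [h, (by omega : j + 1 + 1 = j + 2)]
        omega
      · rw [h, (by omega : j + 2 + 1 = j + 3)]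
        omega
    have e2 : 2 * rd K N (j + (m : ℕ)) ≤ rd K N (j - 1) := by
      obtain h | h | h : (m : ℕ) = 0 ∨ (m : ℕ) = 1 ∨ (m : ℕ) = 2 := by omega
      · rw [h, add_zero]
        omega
      · rw [h]
        omega
      · rw [h]
        omega
    exact ev_nv (hw _ (by omega)) e1 e2 (by omega) _

/-- **Bad zones have a small probability.** -/
theorem zone_p : ∃ K0 : ℝ, 1024 ≤ K0 ∧ ∀ K, K0 ≤ K → ∀ δ : ℝ, 0 < δ → ∃ M0 : ℝ, 0 < M0 ∧
    ∀ M, M0 ≤ M → ∃ B0 : ℝ, 0 < B0 ∧ ∀ B, B0 ≤ B → ∀ n : ℕ, ∀ᶠ N in atTop, ∀ j ≤ n,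
      0 < wj M K N j ∧ P (Zb M K N B j) ≤ ENNReal.ofReal δ := by
  obtain ⟨K1, hK1, h⟩ := moment
  refine ⟨max 1024 K1, le_max_left _ _, fun K hK δ hδ => ?_⟩
  have hKa : (1024 : ℝ) ≤ K := (le_max_left _ _).trans hK
  have hKp : 0 < K := by linarith
  obtain ⟨M1, hM1, h1⟩ := h K ((le_max_right _ _).trans hK) (δ / 2) (by positivity)
  obtain ⟨M2, hM2, h2⟩ := wd_arm qmFr rusFr (e := δ / 8) (ρ := 1 / (128 * K)) (by positivity)
    (by positivity)
  refine ⟨max M1 M2, lt_max_of_lt_left hM1, fun M hM => ?_⟩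
  obtain ⟨B0, hB0, h1⟩ := h1 M ((le_max_left _ _).trans hM)
  obtain ⟨r0, hr0, h2⟩ := h2 M ((le_max_right _ _).trans hM)
  refine ⟨B0, hB0, fun B hB n => ?_⟩
  filter_upwards [h1 B hB (n + 2), big_ev (by linarith : 1 < K) (n + 2) (max r0 64)]
    with N g1 g2 j hj
  obtain ⟨⟨k1, -, -⟩, k2, k3, -, k4⟩ := g1 j (by omega)
  refine ⟨k1, ?_⟩
  have b0 := g2 j (by omega)
  have b1 := g2 (j + 1) (by omega)
  have k5 : (P {w | Arm (Cl (1 / 2 + wj M K N j) w) 0 (mj K N (j + 1))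
      (2 * mj K N (j + 1))}).toReal ≤ δ / 8 := by
    refine (h2 (rd K N j) (mj K N (j + 1)) (by omega) ?_).2
    have h7 := rd_le (K := K) (N := N) (j := j) (by linarith) (by omega)
    have h8 : rd K N (j + 1) ≤ 64 * mj K N (j + 1) := by
      unfold mj
      omega
    have h9 : (rd K N (j + 1) : ℝ) ≤ 64 * (mj K N (j + 1) : ℝ) := by exact_mod_cast h8
    rw [div_mul_eq_mul_div, one_mul, div_le_iff₀ (by positivity)]
    nlinarith
  have k6 : ∀ m ∈ (Finset.univ : Finset (Fin 3)),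
      (P {w | B * (1 / 2) ^ (m : ℕ) / 2 < ((NV M K N j (j + m) w).ncard : ℝ)}).toReal ≤
        δ / 8 := by
    intro m _
    have hm := m.2
    have h7 := k4 (j + m) (by omega) (by omega)
    rw [(by omega : j + m - j = m)] at h7
    refine h7.trans ?_
    have h8 : (1 / 4 : ℝ) ^ (m : ℕ) ≤ 1 := pow_le_one₀ (by norm_num) (by norm_num)
    nlinarith
  have u : ∀ A C : Set Lab, (P (A ∪ C)).toReal ≤ (P A).toReal + (P C).toReal := by
    intro A C
    rw [← ENNReal.toReal_add (measure_ne_top _ _) (measure_ne_top _ _)]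
    exact ENNReal.toReal_mono (ENNReal.add_ne_top.2 ⟨measure_ne_top _ _, measure_ne_top _ _⟩)
      (measure_union_le A C)
  rw [ENNReal.le_ofReal_iff_toReal_le (measure_ne_top _ _) hδ.le]
  have k7 := P_union Finset.univ
    (fun m : Fin 3 => {w | B * (1 / 2) ^ (m : ℕ) / 2 < ((NV M K N j (j + m) w).ncard : ℝ)}) k6
  rw [Finset.card_univ, Fintype.card_fin] at k7
  simp only [Finset.mem_univ, iUnion_true] at k7
  push_cast at k7
  have k8 : (P (MSTLim.NO M K N j)).toReal ≤ δ / 8 := by linarith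
  have k9 : (P (MSTLim.NC M K N j)).toReal ≤ δ / 8 := by linarith
  unfold Zb
  have := u (MSTLim.NO M K N j) (MSTLim.NC M K N j ∪ ({w | Arm (Cl (1 / 2 + wj M K N j) w) 0 (mj K N (j + 1))
    (2 * mj K N (j + 1))} ∪ ⋃ m : Fin 3,
      {w | B * (1 / 2) ^ (m : ℕ) / 2 < ((NV M K N j (j + m) w).ncard : ℝ)}))
  have h11 := u (MSTLim.NC M K N j) ({w | Arm (Cl (1 / 2 + wj M K N j) w) 0 (mj K N (j + 1))
    (2 * mj K N (j + 1))} ∪ ⋃ m : Fin 3,
      {w | B * (1 / 2) ^ (m : ℕ) / 2 < ((NV M K N j (j + m) w).ncard : ℝ)})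
  have h12 := u {w | Arm (Cl (1 / 2 + wj M K N j) w) 0 (mj K N (j + 1))
    (2 * mj K N (j + 1))} (⋃ m : Fin 3,
      {w | B * (1 / 2) ^ (m : ℕ) / 2 < ((NV M K N j (j + m) w).ncard : ℝ)})
  linarith

end Pool.Agent.MSTP
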