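import Pool.Agent.MSTG.Maps
import Pool.Agent.MSTLim.EndW
import Pool.Agent.MSTP.Evt
import Pool.Agent.MSTP.RlbE
import Pool.Agent.MSTP.SG
import Pool.Agent.MSTP.Zone

/-!
# The relabelling for a fixed set of gates
-/

set_option autoImplicit false

namespace Pool.Agent.MSTP

open Pool.Agent.TriPerc Pool.Agent.MST Pool.Agent.MSTG Pool.Agent.MSTS Set MeasureTheory
open Pool.Agent.MSTLim (rd wj RE XE gF UpB)
open scoped ENNReal

private theorem nv_bound {M K N B : ℝ} {D t L : ℕ} {q : Fin 9 → ℕ} (hq : Pos D t q)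
    (hL : t + 13 * D ≤ L) {S : Finset ℕ} {w : Lab}
    (hZ : ∀ z, w ∉ Zb M K N B (q z)) (hG : ∀ i ∈ S, w ∈ GG M K N B L i) :
    ∀ i ∈ itm S q, ∀ j, i ≤ j → j ≤ act S q i →
      ((MSTG.NV (rd K N) (wj M K N) i j w).ncard : ℝ) ≤ B * (1 / 2) ^ (j - i) / 2 := by
  intro i hi j h1 h2
  have hq4 := (hq.all).2.2.2.2.1
  by_cases hiS : i ∈ S
  · rw [act_S hiS] at h2
    exact (hG i hiS).2.2 j h1 (by omega)
  · obtain ⟨z, -, rfl⟩ := Finset.mem_image.1 ((Finset.mem_union.1 hi).resolve_left hiS)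
    have h3 : j ≤ q z + 2 := by
      refine h2.trans ?_
      unfold act
      rw [if_neg hiS]
      split_ifs <;> omega
    obtain ⟨m, hm, rfl⟩ : ∃ m : ℕ, m < 3 ∧ j = q z + m := ⟨j - q z, by omega, by omega⟩
    have h4 := hZ z
    simp only [Zb, mem_union, mem_iUnion, not_or, not_exists] at h4
    have h5 := h4.2.2.2 ⟨m, hm⟩
    have h6 : ((MSTLim.NV M K N (q z) (q z + m) w).ncard : ℝ) ≤ B * (1 / 2) ^ m / 2 := not_lt.1 h5
    rw [Nat.add_sub_cancel_left]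
    exact h6

theorem rlb (hM : MasterS) {K N M B : ℝ} (hK : 8192 ≤ K) (hN : 0 ≤ N) (hB : 0 ≤ B) {D t L : ℕ}
    (h : Scl (rd K N) (wj M K N) L) (hD : 6 * D ≤ t) (hL : t + 13 * D ≤ L) {q : Fin 9 → ℕ}
    (hq : Pos D t q) {S : Finset ℕ} (hS : ∀ i ∈ S, 5 * D ≤ i ∧ i + D < t) (hS0 : 0 < S.card)
    {tm um : ℤ} {e : ℝ} (he : 0 < e) (he2 : e ≤ 1 / 2)
    (htm : e * (2 * (N / K ^ (5 * D))) ≤ tm) (ht1 : 1 ≤ tm) (ht2 : tm < um)
    (hu : 2 * um ≤ rd K N (5 * D) + 1)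
    (hE2 : MeasurableSet (E2 (rd K N) (wj M K N) D t (N / K ^ t / 2) (2 * (N / K ^ (5 * D))) e q S))
    {A : Set Lab} (hA : A ⊆ RE K N 0 L ∩ {w | (∀ z, w ∉ Zb M K N B (q z)) ∧
      (∀ s' t', s' + D ≤ t' → t' ≤ L → w ∉ XE K N s' t') ∧
      ∀ z, nrm z = 2 * rd K N (5 * D) + 2 → ¬ Four (Op (1 / 2) w) z tm um})
    {m : ℕ} (hm : 7 * (B * (S.card + 9)) ≤ m) :
    P (A ∩ {w | ∀ i ∈ S, w ∈ GG M K N B L i}) ≤ ENNReal.ofReal (4608 ^ m) *
      P (E2 (rd K N) (wj M K N) D t (N / K ^ t / 2) (2 * (N / K ^ (5 * D))) e q S) := by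
  have hD0 : 0 < D := by
    have := hq 0
    omega
  refine relabel_cmap (lam := lamS (rd K N) (wj M K N) S q) hE2 ?_
  filter_upwards [ae_cmap (lamS (rd K N) (wj M K N) S q), ae_fin_sh, TriPerc.ae_label 0]
    with w hw1 hw2 hw3 hwE
  obtain ⟨hwA, hwG⟩ := hwE
  have hwG' : ∀ i ∈ S, w ∈ GG M K N B L i := hwG
  obtain ⟨hRE, hZ, hX, hF4⟩ := hA hwA
  have hinj : Function.Injective w := by
    intro u v huv
    by_contra hne
    exact hw3.2 u v hne huv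
  have hEF : EF (1 / 2) (rd K N L + 1) (rd K N 0) w := by
    have h1 : w ∈ RE K N 0 L := hRE
    unfold RE at h1
    rw [if_pos (by omega)] at h1
    exact h1
  have hcl : ∀ s' t', s' + D ≤ t' → t' ≤ L → Clean (1 / 2) (rd K N t' + 1) (rd K N s') w :=
    fun s' t' h1 h2 => MSTLim.clean_of (hX s' t' h1 h2)
  have hzz : ∀ z, ¬ Arm (Op (1 / 2 - wj M K N (q z)) w) 0 (mg (rd K N) (q z)) (2 * mg (rd K N) (q z)) ∧
      ¬ Arm (Cl (1 / 2 + wj M K N (q z)) w) 0 (mg (rd K N) (q z)) (2 * mg (rd K N) (q z)) ∧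
      ¬ Arm (Cl (1 / 2 + wj M K N (q z)) w) 0 (mg (rd K N) (q z + 1))
        (2 * mg (rd K N) (q z + 1)) := by
    intro z
    have h4 := hZ z
    simp only [Zb, mem_union, not_or] at h4
    exact ⟨h4.1, h4.2.1, h4.2.2.1⟩
  have hsg := sgood (rho := ⌊3 / 2 * (N / K ^ t / 2)⌋) (rm := 2 * rd K N (5 * D) + 2) (tm := tm)
    (um := um) h hq hD hL hS (fun u => ⟨(hw3.1 u).1, (hw3.1 u).2.1⟩) hw1 hw2 hEF hzz hcl hF4
    (fun i hi => ⟨(hwG' i hi).1, (hwG' i hi).2.1⟩)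
  have hr := rho_ok (K := K) (N := N) (t := t) (h.r0 t (by omega))
  obtain ⟨F, hF⟩ := hM _ _ _ _ _ _ _ (N / K ^ t / 2) (2 * (N / K ^ (5 * D))) e
    (geo_ok h hq hD hL hS hS0 hr.1 hr.2 (by omega) (by omega) ht1 ht2 hu)
    (pat_ok (by linarith) hN h hq hD hL he he2 htm) hsg
  obtain ⟨c1, c2⟩ := fnS_card h hq hL hS hB (nv_bound hq hL hZ hwG')
  have c3 : (FN (lamS (rd K N) (wj M K N) S q) (sh w)).ncard ≤ m := by
    exact_mod_cast c2.trans hm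
  obtain ⟨κ, hκ, hκ2⟩ := hF.rel
  refine ⟨c1, c3, κ, hκ2, ?_, ?_, ?_⟩
  · have := hF.fn
    rw [hκ] at this
    exact this
  · intro u
    have h1 := hF.f0 u
    have h2 := hF.f1 u
    rw [hκ] at h1 h2
    exact ⟨h1, h2⟩
  · have h1 := mem_E2 h hq hL hS hS0 hinj hEF (by
      have := hcl (t - D) t (by omega) (by omega)
      exact this) hF
    rw [hκ] at h1
    exact h1

end Pool.Agent.MSTP
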