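import Pool.Agent.MSTLim.EndW

/-!
# Selection of good blocks with all long annuli clean

`sel_all`: in each of the `M` windows a fixed good block, and no further crossing cluster in any
annulus of at least `δ n` blocks, with probability at least `P (E_F) / (2 (n + 1) ^ M)`, if the
event that all blocks of a window of `L` blocks are bad has the probability at most
`exp (- (α + 1) L)`.
-/

set_option autoImplicit false

namespace Pool.Agent.MSTP

open MeasureTheory Set Filter Topology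
open Pool.Agent.TriPerc Pool.Agent.MST Pool.Agent.MSTLim
open scoped ENNReal

variable {K N α δ : ℝ} {n : ℕ} {w : Lab} {F : Filter ℝ}

private theorem uni {ι : Type} (I : Finset ι) (B : ι → Set Lab) :
    (P (⋃ i ∈ I, B i)).toReal ≤ ∑ i ∈ I, (P (B i)).toReal := by
  rw [← ENNReal.toReal_sum fun i _ => measure_ne_top P (B i)]
  exact ENNReal.toReal_mono (ENNReal.sum_ne_top.2 fun i _ => measure_ne_top P (B i))
    (measure_biUnion_finset_le I B)

private theorem uni2 (A B : Set Lab) : (P (A ∪ B)).toReal ≤ (P A).toReal + (P B).toReal := by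
  rw [← ENNReal.toReal_add (measure_ne_top _ _) (measure_ne_top _ _)]
  exact ENNReal.toReal_mono (ENNReal.add_ne_top.2 ⟨measure_ne_top _ _, measure_ne_top _ _⟩)
    (measure_union_le A B)

/-- Polynomial factors are small with respect to `exp (ρ n)`. -/
private theorem pol {ρ : ℝ} (hρ : 0 < ρ) (M : ℕ) : ∃ n₀ : ℕ, ∀ n ≥ n₀,
    (M + ((n : ℝ) + 1) ^ 2) * Real.exp (-ρ * n) ≤ 1 / 4 := by
  have h1 : Tendsto (fun x : ℝ => x ^ 2 / Real.exp ((ρ / 1) * x)) atTop (𝓝 0) := by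
    have := Real.tendsto_pow_mul_exp_neg_atTop_nhds_zero 2
    have h2 := (this.comp (Tendsto.const_mul_atTop hρ tendsto_id)).const_mul (1 / ρ ^ 2)
    rw [mul_zero] at h2
    refine h2.congr fun x => ?_
    simp only [Function.comp, id, div_one]
    rw [Real.exp_neg]
    field_simp
  have h3 : Tendsto (fun n : ℕ => (M + ((n : ℝ) + 1) ^ 2) * Real.exp (-ρ * n)) atTop (𝓝 0) := by
    have h4 : Tendsto (fun n : ℕ => (M + 1 : ℝ) * Real.exp ρ *
        (((n : ℝ) + 1) ^ 2 / Real.exp ((ρ / 1) * ((n : ℝ) + 1)))) atTop (𝓝 0) := by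
      have h5 : Tendsto (fun n : ℕ => (n : ℝ) + 1) atTop atTop :=
        tendsto_atTop_add_const_right _ _ tendsto_natCast_atTop_atTop
      have h6 := (h1.comp h5).const_mul ((M + 1 : ℝ) * Real.exp ρ)
      rw [mul_zero] at h6
      exact h6
    refine squeeze_zero (fun n => by positivity) (fun n => ?_) h4
    have h7 : Real.exp ρ * (((n : ℝ) + 1) ^ 2 / Real.exp ((ρ / 1) * ((n : ℝ) + 1))) =
        ((n : ℝ) + 1) ^ 2 * Real.exp (-ρ * n) := by
      rw [div_one, div_eq_mul_inv, ← Real.exp_neg, mul_left_comm, ← Real.exp_add]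
      congr 2
      ring
    rw [mul_assoc, h7]
    have h8 : (M + ((n : ℝ) + 1) ^ 2) ≤ (M + 1 : ℝ) * ((n : ℝ) + 1) ^ 2 := by
      have h9 : (0 : ℝ) ≤ M := Nat.cast_nonneg _
      have h10 : (1 : ℝ) ≤ ((n : ℝ) + 1) ^ 2 := by
        have : (0 : ℝ) ≤ n := Nat.cast_nonneg _
        nlinarith
      nlinarith
    have := mul_le_mul_of_nonneg_right h8 (Real.exp_pos (-ρ * n)).le
    linarith
  have h4 := h3.eventually_lt_const (by norm_num : (0 : ℝ) < 1 / 4)
  rw [eventually_atTop] at h4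
  obtain ⟨n0, hn0⟩ := h4
  exact ⟨n0, fun n hn => (hn0 n hn).le⟩

/-- **Selection of good blocks, all long annuli clean.** -/
theorem sel_all (hK : 1 < K) (hF : F ≤ atTop) (hup : UpB K (gF K) F α) (M : ℕ)
    (hδ : 0 < δ) : ∃ n₀ : ℕ, ∀ n ≥ n₀, ∀ᶠ N in F,
      Real.exp (-α * n) / 2 ≤ gF K n N →
      ∀ (D : Fin M → ℕ → Set Lab) (T : Fin M → Finset ℕ) (a b : Fin M → ℕ),
      (∀ i, a i ≤ b i ∧ b i ≤ n ∧ δ * n ≤ (b i - a i : ℕ) ∧
        Ev (Ann 0 (rd K N (b i) + 1) (rd K N (a i))) (⋂ j ∈ T i, D i j) ∧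
        P (⋂ j ∈ T i, D i j) ≤ ENNReal.ofReal (Real.exp (-(α + 1) * (b i - a i : ℕ)))) →
      (∀ i, ∀ j ∈ T i, j ≤ n) →
      ∃ j : Fin M → ℕ, (∀ i, j i ∈ T i) ∧ gF K n N ≤ 2 * (n + 1 : ℝ) ^ M *
        (P (RE K N 0 n ∩ {w | (∀ i, w ∉ D i (j i)) ∧ ∀ s t : ℕ, s < t → t ≤ n →
          δ * n ≤ (t - s : ℕ) → w ∉ XE K N s t})).toReal := by
  classical
  obtain ⟨n1, h1⟩ := win_rel hK hF hup (η := δ / 2) (by positivity)
  obtain ⟨r, hr, n2, h2⟩ := zone_extra hK hF hup hδ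
  obtain ⟨ρ, hρ⟩ : ∃ ρ : ℝ, ρ = min (δ / 2) r := ⟨_, rfl⟩
  have hρ0 : 0 < ρ := by rw [hρ]; exact lt_min (by positivity) hr
  obtain ⟨n3, hn3⟩ := pol hρ0 M
  refine ⟨n1 + n2 + n3, fun n hn => ?_⟩
  filter_upwards [h1 n (by omega), h2 n (by omega)] with N g1 g2 hlow D T a' b' hE hT
  replace g1 := g1 hlow
  replace g2 := g2 hlow
  have h6 : (P (RE K N 0 n)).toReal = gF K n N := by
    rw [P_RE, pow_zero, div_one, Nat.sub_zero]
  obtain ⟨a, haa⟩ : ∃ a : ℝ, a = gF K n N := ⟨_, rfl⟩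
  have ha0 : 0 < a := by
    rw [haa]
    exact (by positivity : 0 < Real.exp (-α * n) / 2).trans_le hlow
  have hexp := hn3 n (by omega)
  have hb : ∀ {B : Set Lab} {ρ' : ℝ}, ρ ≤ ρ' →
      P B ≤ ENNReal.ofReal (Real.exp (-ρ' * n)) * P (RE K N 0 n) →
      (P B).toReal ≤ Real.exp (-ρ * n) * a := by
    intro B ρ' hρ' h
    have h7 := ENNReal.toReal_mono
      (ENNReal.mul_ne_top ENNReal.ofReal_ne_top (measure_ne_top P _)) h
    rw [ENNReal.toReal_mul, ENNReal.toReal_ofReal (Real.exp_pos _).le, h6, ← haa] at h7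
    refine h7.trans (mul_le_mul_of_nonneg_right (Real.exp_le_exp.2 ?_) ha0.le)
    have := mul_le_mul_of_nonneg_right hρ' (Nat.cast_nonneg (α := ℝ) n)
    linarith
  have k1 : ∀ i, (P (RE K N 0 n ∩ ⋂ j ∈ T i, D i j)).toReal ≤ Real.exp (-ρ * n) * a := by
    intro i
    obtain ⟨e1, e2, e3, e4, e5⟩ := hE i
    refine hb (ρ' := δ / 2) (by rw [hρ]; exact min_le_left _ _)
      ((g1 (a' i) (b' i) e1 e2 _ e4).trans (mul_le_mul' ?_ le_rfl))
    refine (mul_le_mul' le_rfl e5).trans ?_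
    rw [← ENNReal.ofReal_mul (Real.exp_pos _).le, ← Real.exp_add]
    refine ENNReal.ofReal_le_ofReal (Real.exp_le_exp.2 ?_)
    linarith
  obtain ⟨J, hJ⟩ : ∃ J : Finset (ℕ × ℕ), J = (Finset.range (n + 1) ×ˢ Finset.range (n + 1)).filter
      fun st => st.1 < st.2 ∧ st.2 ≤ n ∧ δ * n ≤ (st.2 - st.1 : ℕ) := ⟨_, rfl⟩
  have k2 : ∀ st ∈ J, (P (RE K N 0 n ∩ XE K N st.1 st.2)).toReal ≤ Real.exp (-ρ * n) * a := by
    intro st hst
    rw [hJ, Finset.mem_filter] at hst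
    obtain ⟨-, h7, h8, h9⟩ := hst
    exact hb (by rw [hρ]; exact min_le_right _ _) (g2 st.1 st.2 h7 h8 h9)
  have hJc : (J.card : ℝ) ≤ ((n : ℝ) + 1) ^ 2 := by
    have h7 : J.card ≤ (n + 1) * (n + 1) := by
      rw [hJ]
      refine (Finset.card_filter_le _ _).trans (le_of_eq ?_)
      rw [Finset.card_product, Finset.card_range]
    have h8 : (J.card : ℝ) ≤ ((n : ℝ) + 1) * ((n : ℝ) + 1) := by exact_mod_cast h7
    rw [pow_two]
    exact h8
  obtain ⟨G, hG⟩ : ∃ G : (Fin M → ℕ) → Set Lab, ∀ j, G j = RE K N 0 n ∩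
      {w | (∀ i, w ∉ D i (j i)) ∧ ∀ s t : ℕ, s < t → t ≤ n →
          δ * n ≤ (t - s : ℕ) → w ∉ XE K N s t} := ⟨_, fun _ => rfl⟩
  by_contra hcon
  push Not at hcon
  have hcon' : ∀ j ∈ Fintype.piFinset T, 2 * (n + 1 : ℝ) ^ M * (P (G j)).toReal < a := by
    intro j hj
    rw [haa, hG]
    exact hcon j fun i => Fintype.mem_piFinset.1 hj i
  have hcov : RE K N 0 n ⊆ (⋃ i ∈ (Finset.univ : Finset (Fin M)),
      (RE K N 0 n ∩ ⋂ j ∈ T i, D i j)) ∪ ((⋃ st ∈ J,
      (RE K N 0 n ∩ XE K N st.1 st.2)) ∪ ⋃ j ∈ Fintype.piFinset T, G j) := by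
    intro w hw
    by_cases c1 : ∃ i, ∀ j ∈ T i, w ∈ D i j
    · obtain ⟨i, hi⟩ := c1
      exact Or.inl (mem_iUnion₂.2 ⟨i, Finset.mem_univ i, hw, mem_iInter₂.2 hi⟩)
    by_cases c2 : ∃ st ∈ J, w ∈ XE K N st.1 st.2
    · obtain ⟨st, hst, h7⟩ := c2
      exact Or.inr (Or.inl (mem_iUnion₂.2 ⟨st, hst, hw, h7⟩))
    push Not at c1 c2
    choose j hj1 hj2 using c1
    refine Or.inr (Or.inr (mem_iUnion₂.2 ⟨j, Fintype.mem_piFinset.2 hj1, ?_⟩))
    rw [hG]
    refine ⟨hw, hj2, fun s t h7 h8 h9 => c2 (s, t) ?_⟩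
    rw [hJ, Finset.mem_filter, Finset.mem_product, Finset.mem_range, Finset.mem_range]
    exact ⟨⟨by omega, by omega⟩, h7, h8, h9⟩
  have hsum : a ≤ M * (Real.exp (-ρ * n) * a) + ((J.card : ℝ) * (Real.exp (-ρ * n) * a) +
      ∑ j ∈ Fintype.piFinset T, (P (G j)).toReal) := by
    have h7 := ENNReal.toReal_mono (measure_ne_top P _) (measure_mono (μ := P) hcov)
    rw [h6, ← haa] at h7
    refine h7.trans ((uni2 _ _).trans (add_le_add ?_ ((uni2 _ _).trans
      (add_le_add ?_ (uni _ _)))))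
    · refine (uni _ _).trans ((Finset.sum_le_sum fun i _ => k1 i).trans (le_of_eq ?_))
      rw [Finset.sum_const, Finset.card_univ, Fintype.card_fin, nsmul_eq_mul]
    · refine (uni _ _).trans ((Finset.sum_le_sum fun i hi => k2 i hi).trans (le_of_eq ?_))
      rw [Finset.sum_const, nsmul_eq_mul]
  have hE0 : 0 ≤ Real.exp (-ρ * n) * a := by positivity
  have hs1 : 3 / 4 * a ≤ ∑ j ∈ Fintype.piFinset T, (P (G j)).toReal := by
    have h7 := mul_le_mul_of_nonneg_right hexp ha0.le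
    have h8 := mul_le_mul_of_nonneg_right hJc hE0
    linarith
  have hcd : ((Fintype.piFinset T).card : ℝ) ≤ (n + 1 : ℝ) ^ M := by
    rw [Fintype.card_piFinset]
    push_cast
    refine (Finset.prod_le_prod (fun i _ => Nat.cast_nonneg _) (g := fun _ => (n + 1 : ℝ))
      fun i _ => ?_).trans (le_of_eq ?_)
    · have h7 : T i ⊆ Finset.range (n + 1) := fun j hj => by
        have := hT i j hj
        rw [Finset.mem_range]
        omega
      have h8 := Finset.card_le_card h7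
      rw [Finset.card_range] at h8
      exact_mod_cast h8
    · rw [Finset.prod_const, Finset.card_univ, Fintype.card_fin]
  have hs2 : 2 * (n + 1 : ℝ) ^ M * ∑ j ∈ Fintype.piFinset T, (P (G j)).toReal ≤
      (n + 1 : ℝ) ^ M * a := by
    rw [Finset.mul_sum]
    refine (Finset.sum_le_sum fun j hj => (hcon' j hj).le).trans ?_
    rw [Finset.sum_const, nsmul_eq_mul]
    exact mul_le_mul_of_nonneg_right hcd ha0.le
  have hn0 : 0 < (n + 1 : ℝ) ^ M := by positivity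
  have hs3 := mul_le_mul_of_nonneg_left hs1 (by positivity : 0 ≤ 2 * (n + 1 : ℝ) ^ M)
  have := mul_pos hn0 ha0
  nlinarith

end Pool.Agent.MSTP
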