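import Pool.Agent.MSTLim.Cnt
import Pool.Agent.MSTP.Defs
import Pool.Agent.MSTP.SelA
import Pool.Agent.MSTP.Zone

/-!
# The static event at the two ends

`sel`: positions `q` of the nine zones in their windows such that, with probability at least
`P (E_F) / (2 (n + 1) ^ 9)`, all the zones are good and all the annuli of at least `D` blocks have
no further crossing cluster.  The constants `M0`, `B0` depend on `K` and `α` only.
-/

set_option autoImplicit false

namespace Pool.Agent.MSTP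

open MeasureTheory Set Filter Topology
open Pool.Agent.TriPerc Pool.Agent.MST Pool.Agent.MSTLim
open scoped ENNReal

variable {K N α δ : ℝ} {n : ℕ} {w : Lab} {F : Filter ℝ}

/-- The positions in the window `a, …, a + D`. -/
private def win (a D : ℕ) : Finset ℕ := (Finset.range (D / 5)).image fun k => a + 5 * k

private theorem mem_win {a D j : ℕ} (h : j ∈ win a D) :
    ∃ k, k < D / 5 ∧ j = a + 5 * k := by
  obtain ⟨k, hk, rfl⟩ := Finset.mem_image.1 h
  exact ⟨k, Finset.mem_range.1 hk, rfl⟩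

private theorem win_card (a D : ℕ) : (win a D).card = D / 5 := by
  unfold win
  rw [Finset.card_image_of_injective _ (fun k k' h => by omega), Finset.card_range]

/-- **The selection of the zones.** -/
theorem sel : ∃ K0 : ℝ, 1024 ≤ K0 ∧ ∀ K α : ℝ, K0 ≤ K → ∃ M0 : ℝ, 0 < M0 ∧ ∀ M, M0 ≤ M →
    ∃ B0 : ℝ, 0 < B0 ∧ ∀ B, B0 ≤ B → ∀ (F : Filter ℝ) (δ : ℝ), F ≤ atTop →
    UpB K (gF K) F α → 0 < δ → ∃ n₀ : ℕ, ∀ n ≥ n₀, ∀ᶠ N in F,
      Real.exp (-α * n) / 2 ≤ gF K n N →
        ∀ D t : ℕ, δ * n ≤ D → t + 13 * D ≤ n → ∃ q : Fin 9 → ℕ, Pos D t q ∧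
          gF K n N ≤ 2 * (n + 1 : ℝ) ^ 9 * (P (RE K N 0 n ∩
            {w | (∀ z, w ∉ Zb M K N B (q z)) ∧
              ∀ s t' : ℕ, s + D ≤ t' → t' ≤ n → w ∉ XE K N s t'})).toReal := by
  obtain ⟨K0, hK0, hz⟩ := zone_p
  refine ⟨K0, hK0, fun K α hK => ?_⟩
  have hKa : (1024 : ℝ) ≤ K := hK0.trans hK
  have hK1 : 1 < K := by linarith
  obtain ⟨β, hβ⟩ : ∃ β : ℝ, β = |α| + 2 := ⟨_, rfl⟩
  have hβ2 : 2 ≤ β := by linarith [abs_nonneg α]
  have hβα : α + 2 ≤ β := by linarith [le_abs_self α]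
  obtain ⟨M0, hM0, hz⟩ := hz K hK (Real.exp (-(5 * β))) (Real.exp_pos _)
  refine ⟨M0, hM0, fun M hM => ?_⟩
  obtain ⟨B0, hB0, hz⟩ := hz M hM
  refine ⟨B0, hB0, fun B hB F δ hF hup hδ => ?_⟩
  obtain ⟨n1, h1⟩ := sel_all hK1 hF hup 9 (δ := δ) hδ
  obtain ⟨n2, hn2⟩ := exists_nat_ge (4 * β / δ)
  refine ⟨n1 + n2 + 1, fun n hn => ?_⟩
  filter_upwards [h1 n (by omega), hF (hz B hB (n + 2)), hF (big_ev hK1 (n + 2) 64),
    hF (eventually_ge_atTop (0 : ℝ)), hF (wide_ev hK1 n)] with N g1 g2 g3 hN hW hlow D t hD ht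
  have hn' : (n2 : ℝ) ≤ n := by exact_mod_cast (by omega : n2 ≤ n)
  have hδn : 4 * β ≤ D := by
    have h := hn2.trans hn'
    rw [div_le_iff₀ hδ] at h
    linarith
  have hD0 : 0 < D := by
    have : (0 : ℝ) < D := by linarith
    exact_mod_cast this
  have hlo : ∀ z : Fin 9, lo D t z + D ≤ n := by
    intro z
    have : lo D t z ≤ t + 12 * D := by
      fin_cases z <;> simp [lo] <;> omega
    omega
  have c2 : ∀ z : Fin 9, ∀ j ∈ win (lo D t z) D,
      Ev (Ann 0 (rd K N (j + 5) + 1) (rd K N j)) (Zb M K N B (j + 1)) := by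
    intro z j hj
    obtain ⟨k, hk, hk'⟩ := mem_win hj
    have h5 := hlo z
    have h6 := ev_zb (M := M) (B := B) hKa hN (j := j + 1) (by omega)
      (fun s hs => g3 s (by omega)) (fun s hs => (g2 s (by omega)).1.le)
    rw [(by omega : j + 1 + 4 = j + 5), (by omega : j + 1 - 1 = j)] at h6
    exact h6
  have c1 : ∀ z : Fin 9, lo D t z ≤ lo D t z + D ∧ lo D t z + D ≤ n ∧
      δ * n ≤ (lo D t z + D - lo D t z : ℕ) ∧
      Ev (Ann 0 (rd K N (lo D t z + D) + 1) (rd K N (lo D t z)))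
        (⋂ j ∈ win (lo D t z) D, Zb M K N B (j + 1)) ∧
      P (⋂ j ∈ win (lo D t z) D, Zb M K N B (j + 1)) ≤
        ENNReal.ofReal (Real.exp (-(α + 1) * (lo D t z + D - lo D t z : ℕ))) := by
    intro z
    have h5 := hlo z
    have e0 : lo D t z + D - lo D t z = D := by omega
    have h6 := inter_le (win (lo D t z) D)
      (S := fun j => Ann 0 (rd K N (j + 5) + 1) (rd K N j))
      (U := fun j => Zb M K N B (j + 1)) (p := ENNReal.ofReal (Real.exp (-(5 * β))))
      (c2 z) (fun i hi j hj hij => ?_) (fun j hj => ?_)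
    · rw [e0]
      refine ⟨by omega, h5, hD, h6.1.mono ?_, h6.2.trans ?_⟩
      · refine iUnion₂_subset fun j hj => ?_
        obtain ⟨k, hk, hk'⟩ := mem_win hj
        have e1 := hW.le (by omega : lo D t z ≤ j) (by omega)
        have e2 := hW.le (by omega : j + 5 ≤ lo D t z + D) h5
        exact ann_sub (by omega) (by omega)
      · rw [win_card, ← ENNReal.ofReal_pow (Real.exp_pos _).le, ← Real.exp_nat_mul]
        refine ENNReal.ofReal_le_ofReal (Real.exp_le_exp.2 ?_)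
        have e3 : D ≤ 5 * (D / 5) + 4 := by omega
        have e4 : (D : ℝ) ≤ 5 * ((D / 5 : ℕ) : ℝ) + 4 := by exact_mod_cast e3
        have e5 : β * D ≤ β * (5 * ((D / 5 : ℕ) : ℝ) + 4) :=
          mul_le_mul_of_nonneg_left e4 (by linarith)
        have e6 : (α + 2) * D ≤ β * D := mul_le_mul_of_nonneg_right hβα (Nat.cast_nonneg _)
        linarith
    · obtain ⟨k, hk, hk'⟩ := mem_win hi
      obtain ⟨l, hl, hl'⟩ := mem_win hj
      rw [Set.disjoint_left]
      rintro v ⟨k1, k2⟩ ⟨k3, k4⟩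
      rcases lt_or_gt_of_ne hij with h7 | h7
      · have := hW.le (by omega : i + 5 ≤ j) (by omega)
        omega
      · have := hW.le (by omega : j + 5 ≤ i) (by omega)
        omega
    · obtain ⟨k, hk, hk'⟩ := mem_win hj
      exact (g2 (j + 1) (by omega)).2
  obtain ⟨j, hj, hP⟩ := g1 hlow (fun _ j => Zb M K N B (j + 1)) (fun z => win (lo D t z) D)
    (fun z => lo D t z) (fun z => lo D t z + D) c1 (fun z j hj => by
      obtain ⟨k, hk, hk'⟩ := mem_win hj
      have := hlo z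
      omega)
  refine ⟨fun z => j z + 1, fun z => ?_, hP.trans ?_⟩
  · obtain ⟨k, hk, hk'⟩ := mem_win (hj z)
    show lo D t z + 1 ≤ j z + 1 ∧ j z + 1 + 4 ≤ lo D t z + D
    omega
  · refine mul_le_mul_of_nonneg_left (ENNReal.toReal_mono (measure_ne_top _ _)
      (measure_mono ?_)) (by positivity)
    rintro w ⟨h2, h3, h4⟩
    refine ⟨h2, h3, fun s t' h5 h6 => h4 s t' (by omega) h6 ?_⟩
    have h7 : (D : ℝ) ≤ (t' - s : ℕ) := by exact_mod_cast (by omega : D ≤ t' - s)
    linarith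

end Pool.Agent.MSTP
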