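import Pool.Agent.MSTP.Gtm
import Pool.Agent.MSTP.Mar
import Pool.Agent.MSTP.MeasE
import Pool.Agent.MSTP.OverE
import Pool.Agent.MSTP.Rlb
import Pool.Agent.MSTP.Sel

/-!
# Part (G) + (S): the gain

* `core`: one outer radius `N`.
* `partG`: `PartG K PS (gF K)` for all large `K`.
-/

set_option autoImplicit false

namespace Pool.Agent.MSTP

open Pool.Agent.TriPerc Pool.Agent.MST Pool.Agent.MSTG Pool.Agent.MSTS Set MeasureTheory
open Pool.Agent.MSTLim (rd wj RE XE gF UpB LoB ng Gs)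
open scoped ENNReal

variable {K N M B α c ε e : ℝ} {L D t k : ℕ} {q : Fin 9 → ℕ} {tm um : ℤ}

/-- The static event. -/
def A0 (K N M B : ℝ) (D L : ℕ) (q : Fin 9 → ℕ) (tm um : ℤ) : Set Lab :=
  RE K N 0 L ∩ {w | (∀ z, w ∉ Zb M K N B (q z)) ∧
    (∀ s' t', s' + D ≤ t' → t' ≤ L → w ∉ XE K N s' t') ∧
    ∀ z, nrm z = 2 * rd K N (5 * D) + 2 → ¬ Four (Op (1 / 2) w) z tm um}

theorem meas_zb (hM : 0 ≤ M) (j : ℕ) : MeasurableSet (Zb M K N B j) := by
  unfold Zb MSTLim.NO MSTLim.NC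
  exact (ev_arm _ _ _ _).1.1.union ((ev_arm_cl _ _ _ _).1.1.union
    ((ev_arm_cl _ _ _ _).1.1.union (MeasurableSet.iUnion fun m => meas_nv hM _ _ _)))

theorem meas_A0 (hM : 0 ≤ M) : MeasurableSet (A0 K N M B D L q tm um) := by
  have h1 : A0 K N M B D L q tm um = RE K N 0 L ∩ ((⋂ z, (Zb M K N B (q z))ᶜ) ∩
      ((⋂ s' : ℕ, ⋂ t' : ℕ, {w | s' + D ≤ t' → t' ≤ L → w ∉ XE K N s' t'}) ∩
        ⋂ z : V, {w | nrm z = 2 * rd K N (5 * D) + 2 → ¬ Four (Op (1 / 2) w) z tm um})) := by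
    ext w
    simp only [A0, mem_inter_iff, mem_ofPred_eq, mem_iInter, mem_compl_iff]
  rw [h1]
  refine (MSTLim.ev_RE _ _ _ _).1.inter ((MeasurableSet.iInter fun z => (meas_zb hM _).compl).inter
    ((MeasurableSet.iInter fun s' => MeasurableSet.iInter fun t' => ?_).inter
      (MeasurableSet.iInter fun z => ?_)))
  · by_cases h : s' + D ≤ t' ∧ t' ≤ L
    · have h2 : {w | s' + D ≤ t' → t' ≤ L → w ∉ XE K N s' t'} = (XE K N s' t')ᶜ := by
        ext w
        simp only [mem_ofPred_eq, mem_compl_iff]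
        exact ⟨fun h3 => h3 h.1 h.2, fun h3 _ _ => h3⟩
      rw [h2]
      exact (MSTLim.ev_XE _ _ _ _).1.compl
    · have h2 : {w | s' + D ≤ t' → t' ≤ L → w ∉ XE K N s' t'} = univ := by
        ext w
        simp only [mem_ofPred_eq, mem_univ, iff_true]
        exact fun h3 h4 => absurd ⟨h3, h4⟩ h
      rw [h2]
      exact MeasurableSet.univ
  · by_cases h : nrm z = 2 * rd K N (5 * D) + 2
    · have h2 : {w | nrm z = 2 * rd K N (5 * D) + 2 → ¬ Four (Op (1 / 2) w) z tm um} =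
          {w | Four (Op (1 / 2) w) z tm um}ᶜ := by
        ext w
        simp only [mem_ofPred_eq, mem_compl_iff]
        exact ⟨fun h3 => h3 h, fun h3 _ => h3⟩
      rw [h2]
      exact (ev_four _ _ _ _).1.compl
    · have h2 : {w : Lab | nrm z = 2 * rd K N (5 * D) + 2 → ¬ Four (Op (1 / 2) w) z tm um} =
          univ := by
        ext w
        simp only [mem_ofPred_eq, mem_univ, iff_true]
        exact fun h3 => absurd h3 h
      rw [h2]
      exact MeasurableSet.univ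

/-- Good gates between the two ends. -/
def GM (M K N B : ℝ) (D t L i : ℕ) : Set Lab := {w | (5 * D ≤ i ∧ i + D < t) ∧ w ∈ GG M K N B L i}

theorem meas_GM (hM : 0 ≤ M) (i : ℕ) : MeasurableSet (GM M K N B D t L i) := by
  by_cases h : 5 * D ≤ i ∧ i + D < t
  · have h2 : GM M K N B D t L i = GG M K N B L i := by
      ext w
      simp only [GM, mem_ofPred_eq]
      exact ⟨fun h3 => h3.2, fun h3 => ⟨h, h3⟩⟩
    rw [h2]
    exact meas_GG hM L i
  · have h2 : GM M K N B D t L i = ∅ := by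
      ext w
      simp only [GM, mem_ofPred_eq, mem_empty_iff_false, iff_false]
      exact fun h3 => h h3.1
    rw [h2]
    exact MeasurableSet.empty

theorem ng_GM (hL : t + 13 * D = L) (hD : 114 * D ≤ L) {w : Lab}
    (h : 2 * L ≤ 3 * ng (GG M K N B L) L w) : L / 2 ≤ ng (GM M K N B D t L) L w := by
  classical
  have h1 : (Finset.range L).filter (fun i => w ∈ GG M K N B L i) ⊆
      ((Finset.range L).filter fun i => w ∈ GM M K N B D t L i) ∪
        (Finset.range (5 * D) ∪ Finset.Ico (t - D) L) := by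
    intro i hi
    obtain ⟨h2, h3⟩ := Finset.mem_filter.1 hi
    rw [Finset.mem_range] at h2
    rw [Finset.mem_union, Finset.mem_union, Finset.mem_filter, Finset.mem_range, Finset.mem_range,
      Finset.mem_Ico]
    by_cases h4 : 5 * D ≤ i ∧ i + D < t
    · exact Or.inl ⟨h2, h4, h3⟩
    · right
      omega
  have h2 := (Finset.card_le_card h1).trans ((Finset.card_union_le _ _).trans
    (Nat.add_le_add_left (Finset.card_union_le _ _) _))
  rw [Finset.card_range, Nat.card_Ico] at h2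
  have h3 : ng (GG M K N B L) L w ≤ ng (GM M K N B D t L) L w + (5 * D + (L - (t - D))) := by
    unfold ng
    convert h2
  omega

/-- The final event, empty if a gate is outside of the range. -/
def EE (K N M : ℝ) (D t : ℕ) (e : ℝ) (q : Fin 9 → ℕ) (S : Finset ℕ) : Set Lab :=
  {w | (∀ i ∈ S, 5 * D ≤ i ∧ i + D < t) ∧
    w ∈ E2 (rd K N) (wj M K N) D t (N / K ^ t / 2) (2 * (N / K ^ (5 * D))) e q S}

theorem meas_EE (S : Finset ℕ) : MeasurableSet (EE K N M D t e q S) := by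
  by_cases h : ∀ i ∈ S, 5 * D ≤ i ∧ i + D < t
  · have h2 : EE K N M D t e q S =
        E2 (rd K N) (wj M K N) D t (N / K ^ t / 2) (2 * (N / K ^ (5 * D))) e q S := by
      ext w
      simp only [EE, mem_ofPred_eq]
      exact ⟨fun h3 => h3.2, fun h3 => ⟨h, h3⟩⟩
    rw [h2]
    exact meas_E2 _ _ _ _ _ _ _ _ _
  · have h2 : EE K N M D t e q S = ∅ := by
      ext w
      simp only [EE, mem_ofPred_eq, mem_empty_iff_false, iff_false]
      exact fun h3 => h h3.1
    rw [h2]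
    exact MeasurableSet.empty

private theorem real_le {X : Set Lab} {x : ℝ} (h : x ≤ (P X).toReal) :
    ENNReal.ofReal x ≤ P X := by
  rw [← ENNReal.ofReal_toReal (measure_ne_top P X)]
  exact ENNReal.ofReal_le_ofReal h

/-- **One outer radius.** -/
theorem core (hMS : MasterS) {Bn : ℕ} (hK : 8192 ≤ K) (hN : 0 ≤ N) (hM : 0 < M) (hB : 0 ≤ B)
    (hBn : B ≤ Bn) (h : Scl (rd K N) (wj M K N) L) (hD2 : 2 ≤ D) (hL : t + 13 * D = L)
    (hDL : 114 * D ≤ L) (hq : Pos D t q) (he : 0 < e) (he2 : e ≤ 1 / 2)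
    (htm : e * (2 * (N / K ^ (5 * D))) ≤ tm) (ht1 : 1 ≤ tm) (ht2 : tm < um)
    (hu : 2 * um ≤ rd K N (5 * D) + 1) (hk : 1 ≤ k)
    (hcount : ∀ (A E : Set Lab) (Good : ℕ → Set Lab)
      (E2 : Finset ℕ → Set Lab), MeasurableSet A → (∀ j, MeasurableSet (Good j)) →
      (∀ S, MeasurableSet (E2 S)) → P E ≤ 2 * P (A ∩ {w | L / 2 ≤ ng Good L w}) →
      (∀ S ∈ (Finset.range L).powersetCard k,
        P (A ∩ Gs Good S) ≤ ENNReal.ofReal (4608 ^ (63 * Bn) * (4608 ^ (7 * Bn)) ^ k) *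
          P (E2 S)) →
      (∀ᵐ w ∂P, ∀ T ⊆ (Finset.range L).powersetCard k, (∀ S ∈ T, w ∈ E2 S) → T.card ≤ 6) →
      ENNReal.ofReal (Real.exp (c * L)) * P E ≤
        P (⋃ S ∈ (Finset.range L).powersetCard k, E2 S))
    (hlow : Real.exp (-α * L) / 2 ≤ gF K L N)
    (hsel : gF K L N ≤ 2 * (L + 1 : ℝ) ^ 9 * (P (RE K N 0 L ∩
      {w | (∀ z, w ∉ Zb M K N B (q z)) ∧
        ∀ s t' : ℕ, s + D ≤ t' → t' ≤ L → w ∉ XE K N s t'})).toReal)
    (hmar : P {w | ∃ z, nrm z = 2 * rd K N (5 * D) + 2 ∧ Four (Op (1 / 2) w) z tm um} ≤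
      ENNReal.ofReal ε)
    (hgat : (P (RE K N 0 L ∩ {w | 3 * ng (GG M K N B L) L w < 2 * L})).toReal ≤
      Real.exp (-(L : ℝ) / 100) * (P (RE K N 0 L)).toReal) (hε0 : 0 ≤ ε)
    (hε : ε ≤ Real.exp (-α * L) / (8 * (L + 1 : ℝ) ^ 9))
    (hL1 : 8 * (L + 1 : ℝ) ^ 9 * Real.exp (-(L : ℝ) / 100) ≤ 1) :
    ∃ S, MeasurableSet S ∧ ENNReal.ofReal (Real.exp (c * L) *
      (Real.exp (-α * L) / (8 * (L + 1 : ℝ) ^ 9))) ≤ P S ∧
      ∀ w ∈ S, MSTLim.PS e w (N / K ^ t / 2) (2 * (N / K ^ (5 * D))) := by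
  classical
  obtain ⟨T, hT⟩ : ∃ T : ℝ, T = (L + 1 : ℝ) ^ 9 := ⟨_, rfl⟩
  have hT1 : 1 ≤ T := by
    rw [hT]
    refine one_le_pow₀ ?_
    have : (0 : ℝ) ≤ L := Nat.cast_nonneg _
    linarith
  rw [← hT] at hsel hε hL1 ⊢
  obtain ⟨a, ha⟩ : ∃ a : ℝ, a = gF K L N := ⟨_, rfl⟩
  have haR : (P (RE K N 0 L)).toReal = a := by
    rw [MSTLim.P_RE, pow_zero, div_one, Nat.sub_zero, ha]
  rw [← ha] at hlow hsel
  rw [haR] at hgat
  have hlT := mul_le_mul_of_nonneg_right hlow (by linarith : 0 ≤ T)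
  have hexp := Real.exp_pos (-α * L)
  have ha0 : 0 < a := by linarith
  -- the static event
  obtain ⟨A, hA⟩ : ∃ A, A = A0 K N M B D L q tm um := ⟨_, rfl⟩
  have mA : MeasurableSet A := by
    rw [hA]
    exact meas_A0 hM.le
  have hPA : a / (4 * T) ≤ (P A).toReal := by
    have h1 : RE K N 0 L ∩ {w | (∀ z, w ∉ Zb M K N B (q z)) ∧
        ∀ s t' : ℕ, s + D ≤ t' → t' ≤ L → w ∉ XE K N s t'} ⊆ A ∪
        {w | ∃ z, nrm z = 2 * rd K N (5 * D) + 2 ∧ Four (Op (1 / 2) w) z tm um} := by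
      rintro w ⟨h2, h3, h4⟩
      by_cases h5 : ∃ z, nrm z = 2 * rd K N (5 * D) + 2 ∧ Four (Op (1 / 2) w) z tm um
      · exact Or.inr h5
      · left
        rw [hA]
        exact ⟨h2, h3, h4, fun z h6 h7 => h5 ⟨z, h6, h7⟩⟩
    have h2 := ENNReal.toReal_mono (measure_ne_top _ _) (measure_mono (μ := P) h1)
    have h3 := ENNReal.toReal_mono (ENNReal.add_ne_top.2 ⟨measure_ne_top _ _,
      measure_ne_top _ _⟩) (measure_union_le (μ := P) A
        {w | ∃ z, nrm z = 2 * rd K N (5 * D) + 2 ∧ Four (Op (1 / 2) w) z tm um})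
    rw [ENNReal.toReal_add (measure_ne_top _ _) (measure_ne_top _ _)] at h3
    have h4 := ENNReal.toReal_le_of_le_ofReal hε0 hmar
    have h5 := h2.trans h3
    have h6 : ε ≤ a / (4 * T) := by
      refine hε.trans ?_
      rw [div_le_div_iff₀ (by positivity) (by positivity)]
      linarith
    have h7 : a / (2 * T) ≤ (P (RE K N 0 L ∩ {w | (∀ z, w ∉ Zb M K N B (q z)) ∧
        ∀ s t' : ℕ, s + D ≤ t' → t' ≤ L → w ∉ XE K N s t'})).toReal := by
      rw [div_le_iff₀ (by positivity)]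
      linarith
    have h8 : a / (2 * T) = a / (4 * T) + a / (4 * T) := by
      field_simp
      ring
    linarith
  -- the gates
  have hbad : P A ≤ 2 * P (A ∩ {w | L / 2 ≤ ng (GM M K N B D t L) L w}) := by
    have h1 : A ⊆ (A ∩ {w | L / 2 ≤ ng (GM M K N B D t L) L w}) ∪
        (RE K N 0 L ∩ {w | 3 * ng (GG M K N B L) L w < 2 * L}) := by
      intro w hw
      by_cases h2 : 3 * ng (GG M K N B L) L w < 2 * L
      · right
        rw [hA] at hw
        exact ⟨hw.1, h2⟩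
      · exact Or.inl ⟨hw, ng_GM hL hDL (not_lt.1 h2)⟩
    have h2 := ENNReal.toReal_mono (measure_ne_top _ _) (measure_mono (μ := P) h1)
    have h3 := ENNReal.toReal_mono (ENNReal.add_ne_top.2 ⟨measure_ne_top _ _,
      measure_ne_top _ _⟩) (measure_union_le (μ := P)
        (A ∩ {w | L / 2 ≤ ng (GM M K N B D t L) L w})
        (RE K N 0 L ∩ {w | 3 * ng (GG M K N B L) L w < 2 * L}))
    rw [ENNReal.toReal_add (measure_ne_top _ _) (measure_ne_top _ _)] at h3
    have h4 : Real.exp (-(L : ℝ) / 100) * a ≤ a / (8 * T) := by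
      rw [le_div_iff₀ (by positivity)]
      have := mul_le_mul_of_nonneg_right hL1 ha0.le
      linarith
    have h5 : a / (4 * T) = a / (8 * T) + a / (8 * T) := by
      field_simp
      ring
    have h6 : (P A).toReal ≤
        2 * (P (A ∩ {w | L / 2 ≤ ng (GM M K N B D t L) L w})).toReal := by linarith
    rw [← ENNReal.toReal_le_toReal (measure_ne_top _ _) (by finiteness), ENNReal.toReal_mul]
    exact h6
  have key := hcount A A (GM M K N B D t L) (EE K N M D t e q) mA (meas_GM hM.le) meas_EE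
    hbad ?_ ?_
  · refine ⟨⋃ S ∈ (Finset.range L).powersetCard k, EE K N M D t e q S,
      Finset.measurableSet_biUnion _ fun S _ => meas_EE S, ?_, ?_⟩
    · refine le_trans ?_ key
      rw [ENNReal.ofReal_mul (Real.exp_pos _).le]
      refine mul_le_mul_right (real_le (le_trans ?_ hPA)) _
      rw [div_le_div_iff₀ (by positivity) (by positivity)]
      linarith
    · intro w hw
      obtain ⟨S, -, hS⟩ := mem_iUnion₂.1 hw
      exact hS.2.1
  · intro S hS
    rw [Finset.mem_powersetCard] at hS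
    by_cases hSr : ∀ i ∈ S, 5 * D ≤ i ∧ i + D < t
    · have h1 := rlb hMS hK hN hB h (by omega) hL.le hq hSr (by omega) he he2 htm ht1 ht2 hu
        (meas_E2 _ _ _ _ _ _ _ _ _) (A := A) (by rw [hA]; exact subset_rfl)
        (m := 63 * Bn + 7 * Bn * k) (by
          rw [hS.2]
          push_cast
          have h0 : (0 : ℝ) ≤ (k : ℝ) + 9 := by positivity
          have := mul_le_mul_of_nonneg_right hBn h0
          linarith)
      have h2 : A ∩ Gs (GM M K N B D t L) S ⊆ A ∩ {w | ∀ i ∈ S, w ∈ GG M K N B L i} := by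
        rintro w ⟨h3, h4⟩
        exact ⟨h3, fun i hi => (h4 i hi).2⟩
      have h3 : EE K N M D t e q S =
          E2 (rd K N) (wj M K N) D t (N / K ^ t / 2) (2 * (N / K ^ (5 * D))) e q S := by
        ext w
        simp only [EE, mem_ofPred_eq]
        exact ⟨fun h3 => h3.2, fun h3 => ⟨hSr, h3⟩⟩
      rw [h3]
      refine (measure_mono h2).trans (h1.trans (le_of_eq ?_))
      congr 2
      rw [pow_add, pow_mul (4608 : ℝ) (7 * Bn) k]
    · have h2 : A ∩ Gs (GM M K N B D t L) S = ∅ := by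
        ext w
        simp only [mem_inter_iff, mem_empty_iff_false, iff_false]
        rintro ⟨-, h4⟩
        exact hSr fun i hi => (h4 i hi).1
      rw [h2, measure_empty]
      exact zero_le
  · filter_upwards [over_E2 (t := t) h hD2 (by omega) (by omega) hq
      (a := N / K ^ t / 2) (b := 2 * (N / K ^ (5 * D))) (e := e)] with w hw T hT hTw
    refine hw k (by omega) T fun S hS => ?_
    exact ⟨(Finset.mem_powersetCard.1 (hT hS)).2, (hTw S hS).1, (hTw S hS).2⟩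

private theorem exp_poly {ρ : ℝ} (hρ : 0 < ρ) : ∃ n₀ : ℕ, ∀ n : ℕ, n₀ ≤ n →
    8 * (n + 1 : ℝ) ^ 9 ≤ Real.exp (ρ * n) := by
  have h := (isLittleO_pow_exp_pos_mul_atTop (k := 9) hρ).bound
    (show 0 < 1 / (8 * Real.exp ρ) by positivity)
  have ht : Filter.Tendsto (fun n : ℕ => (n : ℝ) + 1) Filter.atTop Filter.atTop :=
    Filter.tendsto_atTop_add_const_right _ _ tendsto_natCast_atTop_atTop
  obtain ⟨n₀, h0⟩ := Filter.eventually_atTop.1 (ht.eventually h)
  refine ⟨n₀, fun n hn => ?_⟩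
  have h1 := h0 n hn
  rw [Real.norm_eq_abs, Real.norm_eq_abs, abs_of_nonneg (by positivity),
    abs_of_nonneg (Real.exp_pos _).le, mul_add, mul_one, Real.exp_add] at h1
  have h2 : 1 / (8 * Real.exp ρ) * (Real.exp (ρ * n) * Real.exp ρ) = Real.exp (ρ * n) / 8 := by
    have := (Real.exp_pos ρ).ne'
    field_simp
  rw [h2] at h1
  linarith

private theorem stable {F : Filter ℝ} (h : Filter.Tendsto (fun N => N / K) F F) (m : ℕ) :
    Filter.Tendsto (fun N => N / K ^ m) F F := by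
  induction m with
  | zero =>
    simp only [pow_zero, div_one]
    exact Filter.tendsto_id
  | succ m ih =>
    have h1 := h.comp ih
    refine h1.congr fun N => ?_
    simp only [Function.comp]
    rw [div_div, ← pow_succ]

/-- **The strong pattern has a smaller exponent.** -/
theorem partG_of (hMS : MasterS) : ∃ K0 : ℝ, 8192 ≤ K0 ∧ ∀ K, K0 ≤ K →
    MSTLim.PartG K MSTLim.PS (gF K) := by
  obtain ⟨K1, hK1, hmom⟩ := MSTLim.moment
  obtain ⟨K2, hK2, hsel⟩ := sel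
  refine ⟨max 8192 (max K1 K2), le_max_left _ _, fun K hK => ?_⟩
  intro F hF α hα hup hlo
  have hK8 : 8192 ≤ K := (le_max_left _ _).trans hK
  have hKm : K1 ≤ K := (le_max_left _ _).trans ((le_max_right _ _).trans hK)
  have hKs : K2 ≤ K := (le_max_right _ _).trans ((le_max_right _ _).trans hK)
  have hK1' : 1 < K := by linarith
  have hFt := hF.le_atTop
  obtain ⟨δ1, hδ1, n1, hgates⟩ := gates_many hK8 hFt hα hup
  obtain ⟨M1, hM1, hmom⟩ := hmom K hKm δ1 hδ1
  obtain ⟨M2, hM2, hsel⟩ := hsel K α hKs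
  obtain ⟨M, hMdef⟩ : ∃ M, M = max M1 M2 := ⟨_, rfl⟩
  have hM : 0 < M := by rw [hMdef]; exact lt_max_of_lt_left hM1
  obtain ⟨B1, hB1, hmom⟩ := hmom M (by rw [hMdef]; exact le_max_left _ _)
  obtain ⟨B2, hB2, hsel⟩ := hsel M (by rw [hMdef]; exact le_max_right _ _)
  obtain ⟨B, hBdef⟩ : ∃ B, B = max B1 B2 := ⟨_, rfl⟩
  have hB : 0 < B := by rw [hBdef]; exact lt_max_of_lt_left hB1
  obtain ⟨Bn, hBn⟩ : ∃ Bn : ℕ, B ≤ Bn := exists_nat_ge B
  obtain ⟨c, hc, n2, hcnt⟩ := MSTLim.count_gain (Q := 4608 ^ (7 * Bn)) (C0 := 4608 ^ (63 * Bn))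
    (one_le_pow₀ (by norm_num)) (by positivity) 6
  obtain ⟨δ, hδdef⟩ : ∃ δ, δ = min (1 / 200) (c / (200 * (α + 1))) := ⟨_, rfl⟩
  have hδ : 0 < δ := by rw [hδdef]; exact lt_min (by norm_num) (by positivity)
  have hδ1' : δ ≤ 1 / 200 := by rw [hδdef]; exact min_le_left _ _
  have hδ2' : δ * (200 * (α + 1)) ≤ c := by
    rw [← le_div_iff₀ (by positivity), hδdef]
    exact min_le_right _ _
  obtain ⟨n3, hsel⟩ := hsel B (by rw [hBdef]; exact le_max_right _ _) F δ hFt hup hδ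
  obtain ⟨n4, hp1⟩ := exp_poly (ρ := c / 8) (by positivity)
  obtain ⟨n5, hp2⟩ := exp_poly (ρ := 1 / 100) (by norm_num)
  obtain ⟨n6, hn6⟩ := exists_nat_ge (2 / δ)
  obtain ⟨n7, hn7⟩ := exists_nat_ge (100 * α / c)
  refine ⟨c / 2, by positivity, fun n₀ => ?_⟩
  obtain ⟨L, hLdef⟩ : ∃ L, L = n1 + n2 + n3 + n4 + n5 + n6 + n7 + 2 * n₀ + 400 := ⟨_, rfl⟩
  obtain ⟨D, hDdef⟩ : ∃ D, D = ⌈δ * L⌉₊ := ⟨_, rfl⟩
  have hD1 : δ * L ≤ D := by rw [hDdef]; exact Nat.le_ceil _
  have hD2 : (D : ℝ) < δ * L + 1 := by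
    rw [hDdef]
    exact Nat.ceil_lt_add_one (by positivity)
  have hL6 : (n6 : ℝ) ≤ L := by exact_mod_cast (by omega : n6 ≤ L)
  have hL7 : (n7 : ℝ) ≤ L := by exact_mod_cast (by omega : n7 ≤ L)
  have hL400 : (400 : ℝ) ≤ L := by exact_mod_cast (by omega : 400 ≤ L)
  have hDge : 2 ≤ D := by
    have h1 := hn6.trans hL6
    rw [div_le_iff₀ hδ] at h1
    have h2 : (2 : ℝ) ≤ D := by linarith
    exact_mod_cast h2
  have hD3 : (D : ℝ) < L / 200 + 1 := by
    have := mul_le_mul_of_nonneg_right hδ1' (by linarith : (0 : ℝ) ≤ L)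
    linarith
  have hDL : 114 * D ≤ L := by
    have h1 : (114 : ℝ) * D ≤ L := by linarith
    exact_mod_cast h1
  have hDLn : 18 * D + n₀ ≤ L := by
    have h1 : 2 * n₀ + 400 ≤ L := by omega
    have h2 : (2 : ℝ) * n₀ + 400 ≤ L := by exact_mod_cast h1
    have h3 : (18 : ℝ) * D + n₀ ≤ L := by linarith
    exact_mod_cast h3
  obtain ⟨t, htdef⟩ : ∃ t, t = L - 13 * D := ⟨_, rfl⟩
  have hL : t + 13 * D = L := by omega
  obtain ⟨n, hndef⟩ : ∃ n, n = t - 5 * D := ⟨_, rfl⟩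
  have hn : 5 * D + n = t := by omega
  obtain ⟨ε, hεdef⟩ : ∃ ε, ε = Real.exp (-α * L) / (8 * (L + 1 : ℝ) ^ 9) := ⟨_, rfl⟩
  have hε : 0 < ε := by rw [hεdef]; positivity
  obtain ⟨e, he, he2, hmar⟩ := mar hK1' (5 * D) hε
  refine ⟨n, by omega, e, he, ?_⟩
  obtain ⟨k, hk1, hkL, hcnt⟩ := hcnt L (by omega)
  have hL1 : 8 * (L + 1 : ℝ) ^ 9 * Real.exp (-(L : ℝ) / 100) ≤ 1 := by
    have h1 := hp2 L (by omega)
    have h2 : Real.exp (1 / 100 * (L : ℝ)) * Real.exp (-(L : ℝ) / 100) = 1 := by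
      rw [← Real.exp_add, Real.exp_eq_one_iff]
      ring
    calc 8 * (L + 1 : ℝ) ^ 9 * Real.exp (-(L : ℝ) / 100) ≤
        Real.exp (1 / 100 * (L : ℝ)) * Real.exp (-(L : ℝ) / 100) :=
          mul_le_mul_of_nonneg_right h1 (Real.exp_pos _).le
      _ = 1 := h2
  have hfreq : ∃ᶠ N in F, ∃ S : Set Lab, MeasurableSet S ∧
      ENNReal.ofReal (Real.exp (-(α - c / 2) * n)) ≤ P S ∧
      ∀ ω ∈ S, MSTLim.PS e ω (N / K ^ (5 * D) / K ^ n / 2) (2 * (N / K ^ (5 * D))) := by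
    have hev := ((hgates L (by omega)).and (hsel L (by omega))).and
      (((hmom B (by rw [hBdef]; exact le_max_left _ _) L).filter_mono hFt).and
      (((MSTLim.big_ev hK1' L 8192).filter_mono hFt).and ((hmar.filter_mono hFt).and
        ((Filter.eventually_ge_atTop (0 : ℝ)).filter_mono hFt))))
    have hloL : ∃ᶠ N in F, Real.exp (-α * L) / 2 ≤ gF K L N := hlo L
    refine (hloL.and_eventually hev).mono ?_
    rintro N ⟨hlow, ⟨g1, g2⟩, g3, g4, ⟨tm, um, m1, m2, m3, m4, m5⟩, hN⟩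
    have hScl : Scl (rd K N) (wj M K N) L := scl_of hK8 hN g4 fun s hs => (g3 s hs).1
    have hlow' : Real.exp (-(α + 1 / 200) * L) / 2 ≤ gF K L N := by
      refine le_trans ?_ hlow
      refine div_le_div_of_nonneg_right (Real.exp_le_exp.2 ?_) (by norm_num)
      linarith
    obtain ⟨q, hq, hq2⟩ := g2 hlow D t hD1 hL.le
    have hgat := g1 hlow' M B hM hScl fun i hi =>
      ⟨(g3 i hi).2.1, (g3 i hi).2.2.2.1, (g3 i hi).2.2.2.2⟩
    obtain ⟨S, hS1, hS2, hS3⟩ := core hMS hK8 hN hM hB.le hBn hScl hDge hL hDL hq he he2 m4 m1 m2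
      m3 hk1 hcnt hlow hq2 m5 hgat hε.le hεdef.le hL1
    refine ⟨S, hS1, le_trans ?_ hS2, fun ω hω => ?_⟩
    · refine ENNReal.ofReal_le_ofReal ?_
      have h1 := hp1 L (by omega)
      have h2 : Real.exp (c * L) * (Real.exp (-α * L) / (8 * (L + 1 : ℝ) ^ 9)) ≥
          Real.exp (c * L) * (Real.exp (-α * L) / Real.exp (c / 8 * L)) := by
        refine mul_le_mul_of_nonneg_left ?_ (Real.exp_pos _).le
        exact div_le_div_of_nonneg_left (Real.exp_pos _).le (by positivity) h1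
      refine le_trans ?_ h2
      rw [← Real.exp_sub, ← Real.exp_add]
      refine Real.exp_le_exp.2 ?_
      have h3 : (n : ℝ) = L - 18 * D := by
        have h4 : n + 18 * D = L := by omega
        have h5 : (n : ℝ) + 18 * D = L := by exact_mod_cast h4
        linarith
      rw [h3]
      have h4 := hn7.trans hL7
      rw [div_le_iff₀ hc] at h4
      have h5 : α * D ≤ α * (δ * L + 1) := mul_le_mul_of_nonneg_left hD2.le hα
      have h6 : α * (δ * L) ≤ c * L / 200 := by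
        have h7 : δ * (200 * (α + 1)) * L ≤ c * L :=
          mul_le_mul_of_nonneg_right hδ2' (by linarith)
        have h8 : 0 ≤ δ * L := by positivity
        linarith
      have h9 : 0 ≤ c * (D : ℝ) := by positivity
      linarith
    · have h1 := hS3 ω hω
      rw [div_div N, ← pow_add, hn]
      exact h1
  exact (stable hF.stable (5 * D)).frequently (p := fun N' => ∃ S : Set Lab, MeasurableSet S ∧
      ENNReal.ofReal (Real.exp (-(α - c / 2) * n)) ≤ P S ∧
      ∀ ω ∈ S, MSTLim.PS e ω (N' / K ^ n / 2) (2 * N')) hfreq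

end Pool.Agent.MSTP
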