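import Mathlib
import Pool.Agent.MSTP.PG
import Pool.Agent.MSTS.Master
import Pool.Agent.MSTLim.PartN
import Pool.Agent.MSTLim.Final

/-!
# The final statement
-/

set_option autoImplicit false

namespace Pool.Agent.MSTP

theorem final : MSTLim.Final := by
  obtain ⟨K0, hK0, hG⟩ := partG_of MSTS.master
  obtain ⟨K1, hK1, hN⟩ := MSTLim.partN
  have h0 : K0 ≤ max K0 K1 := le_max_left _ _
  exact MSTLim.final_of (K := max K0 K1) (by linarith) (hN _ (le_max_right _ _)) (hG _ h0)

end Pool.Agent.MSTP
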