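import Pool.Agent.MSTLim.GoodP

/-!
# At least two thirds of the blocks are good

`good_many3`: as `MSTLim.good_many`, with `3 ng < 2 n` instead of `ng < n / 2`.
-/

set_option autoImplicit false

namespace Pool.Agent.MSTP

open MeasureTheory Set Filter
open Pool.Agent.TriPerc Pool.Agent.MST Pool.Agent.MSTLim
open scoped ENNReal

variable {K N C x δ : ℝ} {n : ℕ} {Bad : ℕ → ℕ → Set Lab}

theorem ng_GdB3 (hn : 24 ≤ n) (w : Lab) (h : 3 * ng (GdB Bad n) n w < 2 * n) :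
    3 * (n / 12) ≤ ∑ j ∈ Finset.Icc 2 (n - 1), ng (Bad j) (j - 1) w := by
  classical
  have h1 : (Finset.range n).filter (fun i => w ∉ GdB Bad n i) ⊆ {0, 1} ∪
      (Finset.Icc 2 (n - 1)).biUnion fun j =>
        ((Finset.range (j - 1)).filter fun m => w ∈ Bad j m).image fun m => j - m := by
    intro i hi
    obtain ⟨h2, h3⟩ := Finset.mem_filter.1 hi
    rw [Finset.mem_range] at h2
    rw [Finset.mem_union, Finset.mem_biUnion]
    by_cases hi2 : 2 ≤ i
    · right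
      have h4 : ∃ m, i + m + 1 ≤ n ∧ w ∈ Bad (i + m) m := by
        by_contra hcon
        push Not at hcon
        exact h3 ⟨hi2, hcon⟩
      obtain ⟨m, h5, h6⟩ := h4
      refine ⟨i + m, Finset.mem_Icc.2 ⟨by omega, by omega⟩, Finset.mem_image.2 ⟨m,
        Finset.mem_filter.2 ⟨Finset.mem_range.2 (by omega), h6⟩, by omega⟩⟩
    · left
      rw [Finset.mem_insert, Finset.mem_singleton]
      omega
  have h2 : ((Finset.range n).filter fun i => w ∉ GdB Bad n i).card ≤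
      2 + ∑ j ∈ Finset.Icc 2 (n - 1), ng (Bad j) (j - 1) w := by
    refine (Finset.card_le_card h1).trans ((Finset.card_union_le _ _).trans ?_)
    refine add_le_add Finset.card_le_two (Finset.card_biUnion_le.trans
      (Finset.sum_le_sum fun j _ => ?_))
    exact Finset.card_image_le
  have h3 : ng (GdB Bad n) n w + ((Finset.range n).filter fun i => w ∉ GdB Bad n i).card = n := by
    unfold ng
    rw [Finset.card_filter_add_card_filter_not, Finset.card_range]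
  omega

private theorem ev_ng {s : Set V} {B : ℕ → Set Lab} (h : ∀ m, Ev s (B m)) (k y : ℕ) :
    Ev s {w | y ≤ ng B k w} := by
  refine ⟨meas_ng (fun m => (h m).1) k y, fun w w' hw hy => ?_⟩
  have h3 : ∀ m, (w ∈ B m) = (w' ∈ B m) := fun m =>
    propext ⟨(h m).2 w w' hw, (h m).2 w' w fun v hv => (hw v hv).symm⟩
  have h1 : ng B k w = ng B k w' := by
    unfold ng
    congr 1
    ext m
    simp only [Finset.mem_filter, h3]
  have h2 : y ≤ ng B k w := hy
  rw [h1] at h2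
  exact h2

private theorem geo4 (y k : ℕ) :
    ∑ m ∈ Finset.Ico y k, (1 / 4 : ℝ) ^ m ≤ 4 / 3 * (1 / 4 : ℝ) ^ y := by
  rcases le_or_gt y k with h | h
  · rw [geom_sum_Ico (by norm_num) h]
    have : (0 : ℝ) < (1 / 4) ^ k := by positivity
    have e : ((1 / 4 : ℝ) ^ k - (1 / 4) ^ y) / (1 / 4 - 1) =
        4 / 3 * ((1 / 4 : ℝ) ^ y - (1 / 4) ^ k) := by
      ring
    rw [e]
    linarith
  · rw [Finset.Ico_eq_empty (by omega), Finset.sum_empty]
    positivity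

private theorem P_ng {B : ℕ → Set Lab} (hδ : 0 ≤ δ) {k : ℕ}
    (h : ∀ m < k, (P (B m)).toReal ≤ δ * (1 / 4) ^ m) {y : ℕ} (hy : 1 ≤ y) :
    (P {w | y ≤ ng B k w}).toReal ≤ 16 / 3 * δ * ((1 / 2) ^ 2) ^ y := by
  classical
  have h1 : {w | y ≤ ng B k w} ⊆ ⋃ m ∈ Finset.Ico (y - 1) k, B m := by
    intro w hw
    by_contra hcon
    rw [mem_iUnion₂] at hcon
    have h2 : (Finset.range k).filter (fun j => w ∈ B j) ⊆ Finset.range (y - 1) := by
      intro m hm
      obtain ⟨h3, h4⟩ := Finset.mem_filter.1 hm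
      by_contra h5
      rw [Finset.mem_range] at h3 h5
      exact hcon ⟨m, Finset.mem_Ico.2 ⟨by omega, h3⟩, h4⟩
    have h3 := Finset.card_le_card h2
    rw [Finset.card_range] at h3
    have h4 : y ≤ ((Finset.range k).filter fun j => w ∈ B j).card := hw
    omega
  have h2 : (P {w | y ≤ ng B k w}).toReal ≤ ∑ m ∈ Finset.Ico (y - 1) k, (P (B m)).toReal := by
    rw [← ENNReal.toReal_sum fun y _ => measure_ne_top _ _]
    refine ENNReal.toReal_mono (ENNReal.sum_ne_top.2 fun y _ => measure_ne_top _ _) ?_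
    exact (measure_mono h1).trans (measure_biUnion_finset_le _ _)
  have h3 : ∑ m ∈ Finset.Ico (y - 1) k, (P (B m)).toReal ≤
      ∑ m ∈ Finset.Ico (y - 1) k, δ * (1 / 4) ^ m :=
    Finset.sum_le_sum fun m hm => h m (Finset.mem_Ico.1 hm).2
  refine h2.trans (h3.trans ?_)
  rw [← Finset.mul_sum]
  refine (mul_le_mul_of_nonneg_left (geo4 (y - 1) k) hδ).trans (le_of_eq ?_)
  obtain ⟨z, rfl⟩ : ∃ z, y = z + 1 := ⟨y - 1, by omega⟩
  rw [Nat.add_sub_cancel, pow_succ]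
  norm_num
  ring

/-- Relative to `E_F` at least two thirds of the blocks are good. -/
theorem good_many3 (hK : 1 < K) {F : Filter ℝ} (hF : F ≤ atTop) {α : ℝ} (hα : 0 ≤ α)
    (hup : UpB K (gF K) F α) :
    ∃ δ : ℝ, 0 < δ ∧ ∃ n₀ : ℕ, ∀ n ≥ n₀, ∀ᶠ N in F,
      Real.exp (-(α + 1 / 200) * n) / 2 ≤ gF K n N →
      ∀ Bad : ℕ → ℕ → Set Lab,
      (∀ j m, 2 ≤ j → j + 1 ≤ n →
        Ev (Ann 0 (rd K N (j + 1) + 1) (rd K N (j - 2))) (Bad j m)) →
      (∀ j m, 2 ≤ j → j + 1 ≤ n → m + 2 ≤ j → (P (Bad j m)).toReal ≤ δ * (1 / 4) ^ m) →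
      (P (RE K N 0 n ∩ {w | 3 * ng (GdB Bad n) n w < 2 * n})).toReal ≤
        Real.exp (-(n : ℝ) / 100) * (P (RE K N 0 n)).toReal := by
  obtain ⟨C, hC, hup⟩ := hup (1 / 200) (by norm_num)
  obtain ⟨β, hβ0, hβα, hβε, hβ⟩ : ∃ β : ℝ, 0 ≤ β ∧ β ≤ α ∧ α - 1 / 200 ≤ β ∧
      (β = α - 1 / 200 ∨ β = 0) := by
    rcases le_or_gt 0 (α - 1 / 200) with h | h
    · exact ⟨α - 1 / 200, h, by linarith, le_rfl, Or.inl rfl⟩
    · exact ⟨0, le_rfl, hα, h.le, Or.inr rfl⟩
  obtain ⟨x, hx⟩ : ∃ x : ℝ, x = Real.exp (-β) := ⟨_, rfl⟩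
  have hx0 : 0 < x := by rw [hx]; exact Real.exp_pos _
  obtain ⟨δ, hδ0, hδ⟩ : ∃ δ : ℝ, 0 < δ ∧ C * (x⁻¹) ^ 3 * (16 / 3 * δ) ≤ 1 / 200 := by
    refine ⟨1 / (C * (x⁻¹) ^ 3 * 2000), by positivity, ?_⟩
    have : C * (x⁻¹) ^ 3 * (16 / 3 * (1 / (C * (x⁻¹) ^ 3 * 2000))) = 16 / 6000 := by
      field_simp
      ring
    rw [this]
    norm_num
  obtain ⟨n1, hn1⟩ := exists_nat_ge (200 * Real.log (12 * C))
  refine ⟨δ, hδ0, n1 + 24, fun n hn => ?_⟩
  filter_upwards [(wide_ev hK n).filter_mono hF, hup n] with N hW hUN hlo Bad hE hP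
  have hB : Bd K N n C x := by
    intro s t hst htn
    rw [hx, ← Real.exp_nat_mul]
    rcases hβ with rfl | rfl
    · refine (hUN (t - s) (by omega) s (by omega)).trans (le_of_eq ?_)
      rw [mul_comm ((t - s : ℕ) : ℝ)]
    · rw [neg_zero, mul_zero, Real.exp_zero, mul_one]
      exact (gF_le_one K _ _).trans hC
  have hRE : gF K n N = (P (RE K N 0 n)).toReal := by
    rw [P_RE, Nat.sub_zero, pow_zero, div_one]
  have h1 := wgt (Y := fun j => ng (Bad j) (j - 1)) (a := n / 12) (q := 1 / 2)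
    (δ := 16 / 3 * δ) hW hC hx0 hB
    (fun j h2 h3 y => ev_ng (fun m => hE j m h2 h3) (j - 1) y) (by norm_num) (by norm_num)
    (by positivity) (fun j h2 h3 y hy => P_ng hδ0.le (fun m hm => hP j m h2 h3 (by omega)) hy)
    (Finset.Icc 2 (n - 1)) (fun j hj => by
      have := Finset.mem_Icc.1 hj
      omega) (by omega)
  have h2 : (P (RE K N 0 n ∩ {w | 3 * ng (GdB Bad n) n w < 2 * n})).toReal ≤
      3 * (C * x ^ n * (1 / 2) ^ (n / 12) *
        (1 + C * (x⁻¹) ^ 3 * (16 / 3 * δ) * (1 / 2 / (1 - 1 / 2))) ^ n) := by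
    refine (ENNReal.toReal_mono (measure_ne_top _ _) (measure_mono ?_)).trans h1
    rintro w ⟨h3, h4⟩
    exact ⟨h3, ng_GdB3 (by omega) w h4⟩
  refine h2.trans ?_
  rw [hRE] at hlo
  refine le_trans ?_ (mul_le_mul_of_nonneg_left hlo (Real.exp_pos _).le)
  have hn12 : (12 : ℝ) ≤ n := by exact_mod_cast (by omega : 12 ≤ n)
  have hn1' : (n1 : ℝ) ≤ n := by exact_mod_cast (by omega : n1 ≤ n)
  have e1 : x ^ n ≤ Real.exp (-(α - 1 / 200) * n) := by
    rw [hx, ← Real.exp_nat_mul]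
    refine Real.exp_le_exp.2 ?_
    nlinarith
  have e2 : (1 / 2 : ℝ) ^ (n / 12) ≤ 2 * Real.exp (-(n : ℝ) * (1 / 20)) := by
    have h3 : (n : ℝ) / 12 - 1 ≤ ((n / 12 : ℕ) : ℝ) := by
      have h4 : n ≤ 12 * (n / 12) + 12 := by omega
      have h5 : (n : ℝ) ≤ 12 * ((n / 12 : ℕ) : ℝ) + 12 := by exact_mod_cast h4
      linarith
    have h4 : (1 / 2 : ℝ) ^ (n / 12) = Real.exp (-(Real.log 2) * ((n / 12 : ℕ) : ℝ)) := by
      rw [mul_comm, Real.exp_nat_mul, Real.exp_neg, Real.exp_log (by norm_num), one_div]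
    rw [h4]
    nth_rewrite 2 [← Real.exp_log (by norm_num : (0 : ℝ) < 2)]
    rw [← Real.exp_add]
    refine Real.exp_le_exp.2 ?_
    have l2 := Real.log_two_gt_d9
    nlinarith
  have e3 : (1 + C * (x⁻¹) ^ 3 * (16 / 3 * δ) * (1 / 2 / (1 - 1 / 2))) ^ n ≤
      Real.exp (1 / 200 * n) := by
    have h3 : 1 + C * (x⁻¹) ^ 3 * (16 / 3 * δ) * (1 / 2 / (1 - 1 / 2)) ≤ Real.exp (1 / 200) := by
      have h4 : (1 / 2 / (1 - 1 / 2) : ℝ) = 1 := by norm_num
      rw [h4, mul_one]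
      have := Real.add_one_le_exp (1 / 200 : ℝ)
      linarith
    rw [mul_comm (1 / 200 : ℝ), Real.exp_nat_mul]
    exact pow_le_pow_left₀ (by positivity) h3 n
  calc 3 * (C * x ^ n * (1 / 2) ^ (n / 12) *
        (1 + C * (x⁻¹) ^ 3 * (16 / 3 * δ) * (1 / 2 / (1 - 1 / 2))) ^ n)
      ≤ 3 * (C * Real.exp (-(α - 1 / 200) * n) * (2 * Real.exp (-(n : ℝ) * (1 / 20))) *
          Real.exp (1 / 200 * n)) := by gcongr
    _ = 6 * C * (Real.exp (-(α - 1 / 200) * n) * Real.exp (-(n : ℝ) * (1 / 20)) *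
          Real.exp (1 / 200 * n)) := by ring
    _ = 6 * C * Real.exp (-α * n - n / 25) := by
        rw [← Real.exp_add, ← Real.exp_add]
        congr 2
        ring
    _ ≤ Real.exp (-(n : ℝ) / 100) * (Real.exp (-(α + 1 / 200) * n) / 2) := by
        have h3 : 12 * C ≤ Real.exp (n / 50) := by
          rw [← Real.exp_log (by positivity : 0 < 12 * C)]
          refine Real.exp_le_exp.2 ?_
          linarith
        have h4 : Real.exp (-α * n - n / 25) ≤ Real.exp (-(n : ℝ) / 100) *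
            Real.exp (-(α + 1 / 200) * n) * (Real.exp (n / 50))⁻¹ := by
          rw [← Real.exp_neg, ← Real.exp_add, ← Real.exp_add]
          refine Real.exp_le_exp.2 ?_
          linarith
        have h5 : 12 * C * (Real.exp ((n : ℝ) / 50))⁻¹ ≤ 1 := by
          rw [mul_inv_le_iff₀ (Real.exp_pos _), one_mul]
          exact h3
        have h6 : 0 < Real.exp (-(n : ℝ) / 100) * Real.exp (-(α + 1 / 200) * n) := by positivity
        have h7 : 6 * C * Real.exp (-α * n - n / 25) ≤ 6 * C * (Real.exp (-(n : ℝ) / 100) *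
            Real.exp (-(α + 1 / 200) * n) * (Real.exp (n / 50))⁻¹) := by gcongr
        nlinarith

end Pool.Agent.MSTP
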