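import Pool.Agent.MSTP.Evt
import Pool.Agent.MSTP.Gts
import Pool.Agent.MSTP.Zone

/-!
# Two thirds of the blocks are good for a gate

PROOF. `good_many3` (helper54) with `Bad J m` (`J = j + 1`, the block `j` spoils the block `i = j - m`): for
`m = 0` the events `NO i`, `NB i` (`mem_gdo`, `mem_gdb`), and for all `m` the event `B 2 ^ (- m) / 2 < |NV i j|`. In
terms of the block index `J = j + 1` of GoodP: `Ev (Ann 0 (rd (J + 1) + 1) (rd (J - 2)))` by `ev_nv` (Zone.lean),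
`ev_nb`, `ev_arm` (`2 ≤ J`, `J + 1 ≤ n`); `P (Bad J m) ≤ δ 4 ^ (- m)` for `m + 2 ≤ J`. `w ∈ GdB Bad n (i + 1)` gives
`w ∈ GG M K N B n i`, so `ng (GdB Bad n) n w ≤ ng (GG M K N B n) n w` (`i ↦ i + 1`, `GdB` needs `2 ≤ i + 1`).
-/

set_option autoImplicit false

namespace Pool.Agent.MSTP

open Pool.Agent.TriPerc Pool.Agent.MST Pool.Agent.MSTG Pool.Agent.MSTS Set MeasureTheory
open Pool.Agent.MSTLim (rd wj mj RE gF UpB ng)
open scoped ENNReal

variable {M K N B : ℝ} {n : ℕ} {w : Lab}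

/-- The block `J - 1` spoils the block `J - 1 - m`. -/
def BadG (M K N B : ℝ) (J m : ℕ) : Set Lab :=
  {w | B * (1 / 2) ^ m / 2 < ((MSTLim.NV M K N (J - 1 - m) (J - 1) w).ncard : ℝ)} ∪
    if m = 0 then MSTLim.NO M K N (J - 1) ∪ MSTLim.NB M K N (J - 1) else ∅

theorem ev_badG (hS : Scl (rd K N) (wj M K N) n) {J m : ℕ} (hJ : 2 ≤ J) (hn : J + 1 ≤ n) :
    Ev (Ann 0 (rd K N (J + 1) + 1) (rd K N (J - 2))) (BadG M K N B J m) := by
  have a1 := hS.rr J (by omega)
  have a2 := hS.rr (J - 1) (by omega)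
  have a3 := hS.rr (J - 2) (by omega)
  have r0 := hS.r0 (J + 1) (by omega)
  rw [show J - 1 + 1 = J by omega] at a2
  rw [show J - 2 + 1 = J - 1 by omega] at a3
  have hw := (hS.w0 J (by omega)).le
  refine Ev.union (ev_nv (by rwa [show J - 1 + 1 = J by omega]) ?_ ?_ ?_ _) ?_
  · rw [show J - 1 + 1 = J by omega]
    omega
  · omega
  · omega
  · split_ifs with h
    · refine Ev.union ((ev_arm _ _ _ _).1.mono ?_) ?_
      · rintro v ⟨h1, h2⟩
        unfold mj at h1 h2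
        exact ⟨by omega, by omega⟩
      · have h1 := ev_nb hS (i := J - 1) (by omega) (by omega)
        rwa [show J - 1 + 2 = J + 1 by omega, show J - 1 - 1 = J - 2 by omega] at h1
    · exact ev_empty

/-- A block which is spoiled by no block is good. -/
theorem mem_gg {i : ℕ} (hi : i < n) (h : w ∈ MSTLim.GdB (BadG M K N B) n i) :
    w ∈ GG M K N B n (i - 1) := by
  obtain ⟨h2, h3⟩ := h
  have key : ∀ m, i + m + 1 ≤ n → w ∉ BadG M K N B (i + m) m := h3
  have h0 := key 0 (by omega)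
  refine ⟨mem_gdo.2 fun h4 => h0 (Or.inr ?_), mem_gdb.2 fun h4 => h0 (Or.inr ?_), ?_⟩
  · rw [if_pos rfl]
    exact Or.inl h4
  · rw [if_pos rfl]
    exact Or.inr h4
  · intro j hj hjn
    have h4 := key (j - (i - 1)) (by omega)
    have e1 : i + (j - (i - 1)) - 1 = j := by omega
    have e2 : j - (j - (i - 1)) = i - 1 := by omega
    by_contra h5
    refine h4 (Or.inl ?_)
    change B * (1 / 2) ^ (j - (i - 1)) / 2 < ((MSTLim.NV M K N
      (i + (j - (i - 1)) - 1 - (j - (i - 1))) (i + (j - (i - 1)) - 1) w).ncard : ℝ)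
    rw [e1, e2]
    exact not_le.1 h5

theorem ng_gg : ng (MSTLim.GdB (BadG M K N B) n) n w ≤ ng (GG M K N B n) n w := by
  classical
  unfold ng
  refine Finset.card_le_card_of_injOn (fun i => i - 1) (fun i hi => ?_) (fun i hi j hj hij => ?_)
  · obtain ⟨h1, h2⟩ := Finset.mem_filter.1 hi
    rw [Finset.mem_range] at h1
    exact Finset.mem_coe.2 (Finset.mem_filter.2
      ⟨Finset.mem_range.2 (lt_of_le_of_lt (Nat.sub_le i 1) h1), mem_gg h1 h2⟩)
  · have h1 : 2 ≤ i := (Finset.mem_filter.1 hi).2.1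
    have h2 : 2 ≤ j := (Finset.mem_filter.1 hj).2.1
    have h3 : i - 1 = j - 1 := hij
    omega

theorem gates_many {K : ℝ} (hK : 8192 ≤ K) {F : Filter ℝ} (hF : F ≤ Filter.atTop) {α : ℝ}
    (hα : 0 ≤ α) (hup : UpB K (gF K) F α) :
    ∃ δ : ℝ, 0 < δ ∧ ∃ n₀ : ℕ, ∀ n ≥ n₀, ∀ᶠ N in F,
      Real.exp (-(α + 1 / 200) * n) / 2 ≤ gF K n N →
      ∀ M B : ℝ, 0 < M → Scl (rd K N) (wj M K N) n →
      (∀ i ≤ n, (P (MSTLim.NO M K N i)).toReal ≤ δ / 4 ∧
        (P (MSTLim.NB M K N i)).toReal ≤ δ / 4 ∧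
        ∀ j, i ≤ j → j ≤ n → (P {w | B * (1 / 2) ^ (j - i) / 2 <
          ((MSTLim.NV M K N i j w).ncard : ℝ)}).toReal ≤ δ / 4 * (1 / 4) ^ (j - i)) →
      (P (RE K N 0 n ∩ {w | 3 * ng (GG M K N B n) n w < 2 * n})).toReal ≤
        Real.exp (-(n : ℝ) / 100) * (P (RE K N 0 n)).toReal := by
  obtain ⟨δ, hδ, n₀, h⟩ := good_many3 (by linarith) hF hα hup
  refine ⟨δ, hδ, n₀, fun n hn => ?_⟩
  filter_upwards [h n hn] with N hN hlow M B _ hS hP
  refine le_trans ?_ (hN hlow (BadG M K N B) (fun J m hJ hJn => ev_badG hS hJ hJn)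
    fun J m hJ hJn hm => ?_)
  · refine ENNReal.toReal_mono (measure_ne_top _ _) (measure_mono ?_)
    rintro w ⟨h1, h2⟩
    refine ⟨h1, ?_⟩
    have h3 : 3 * ng (GG M K N B n) n w < 2 * n := h2
    have h4 : ng (MSTLim.GdB (BadG M K N B) n) n w ≤ ng (GG M K N B n) n w := ng_gg
    change 3 * ng (MSTLim.GdB (BadG M K N B) n) n w < 2 * n
    omega
  · have h1 : (P {w | B * (1 / 2) ^ m / 2 <
        ((MSTLim.NV M K N (J - 1 - m) (J - 1) w).ncard : ℝ)}).toReal ≤ δ / 4 * (1 / 4) ^ m := by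
      have h2 := (hP (J - 1 - m) (by omega)).2.2 (J - 1) (by omega) (by omega)
      rwa [show J - 1 - (J - 1 - m) = m by omega] at h2
    have h2 : (P (if m = 0 then MSTLim.NO M K N (J - 1) ∪ MSTLim.NB M K N (J - 1)
        else ∅)).toReal ≤ δ / 2 * (1 / 4) ^ m := by
      split_ifs with h3
      · obtain ⟨h4, h5, -⟩ := hP (J - 1) (by omega)
        rw [h3, pow_zero]
        refine (ENNReal.toReal_mono (ENNReal.add_ne_top.2 ⟨measure_ne_top _ _,
          measure_ne_top _ _⟩) (measure_union_le _ _)).trans ?_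
        rw [ENNReal.toReal_add (measure_ne_top _ _) (measure_ne_top _ _)]
        linarith
      · rw [measure_empty, ENNReal.toReal_zero]
        positivity
    refine (ENNReal.toReal_mono (ENNReal.add_ne_top.2 ⟨measure_ne_top _ _,
      measure_ne_top _ _⟩) (measure_union_le _ _)).trans ?_
    rw [ENNReal.toReal_add (measure_ne_top _ _) (measure_ne_top _ _)]
    have h3 : (0 : ℝ) < (1 / 4) ^ m := by positivity
    have h4 : δ / 4 * (1 / 4) ^ m + δ / 2 * (1 / 4) ^ m ≤ δ * (1 / 4) ^ m := by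
      nlinarith
    linarith

end Pool.Agent.MSTP
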